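import Mathlib

/-! Weighted counting along a tree, and a sum over a residue class. -/

set_option autoImplicit false

namespace Pool.Agent.Q264.VM

open Finset

/-- keep the first `m` coordinates -/
def trunc {t : ℕ} (m : ℕ) (x : Fin t → ℕ) : Fin t → ℕ := fun i => if i.val < m then x i else 0

lemma trunc_trunc {t m m' : ℕ} (h : m ≤ m') (x : Fin t → ℕ) : trunc m (trunc m' x) = trunc m x := by
  funext i
  unfold trunc
  split_ifs with h1 h2
  · rfl
  · omega
  · rfl

lemma trunc_full {t : ℕ} (x : Fin t → ℕ) : trunc t x = x := by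
  funext i
  unfold trunc
  rw [if_pos i.isLt]

theorem tree {t : ℕ} (T : Finset (Fin t → ℕ)) (ω : Fin t → (Fin t → ℕ) → ℝ) (B : ℝ) (hB : 0 ≤ B)
    (hω : ∀ i x, 0 ≤ ω i x)
    (hloc : ∀ i x x', (∀ j, j ≤ i → x j = x' j) → ω i x = ω i x')
    (hsum : ∀ i : Fin t, ∀ x ∈ T, ∑ z ∈ (T.image (trunc (i.val + 1))).filter
      (fun z => trunc i.val z = trunc i.val x), ω i z ≤ B) :
    ∑ x ∈ T, ∏ i, ω i x ≤ B ^ t := by
  classical
  have key : ∀ m, m ≤ t → ∑ z ∈ T.image (trunc m), ∏ i ∈ univ.filter (fun i : Fin t => i.val < m), ω i z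
      ≤ B ^ m := by
    intro m
    induction m with
    | zero =>
      intro _
      have h1 : (T.image (trunc 0)).card ≤ 1 := by
        rw [Finset.card_le_one]
        intro a ha b hb
        rw [Finset.mem_image] at ha hb
        obtain ⟨x, _, rfl⟩ := ha
        obtain ⟨x', _, rfl⟩ := hb
        funext i
        simp [trunc]
      calc ∑ z ∈ T.image (trunc 0), ∏ i ∈ univ.filter (fun i : Fin t => i.val < 0), ω i z
          = ∑ _z ∈ T.image (trunc 0), (1 : ℝ) := by
            apply Finset.sum_congr rfl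
            intro z _
            simp
        _ = ((T.image (trunc 0)).card : ℝ) := by simp
        _ ≤ 1 := by exact_mod_cast h1
        _ = B ^ 0 := by simp
    | succ m ih =>
      intro hm
      have ih := ih (by omega)
      have hmaps : ∀ z ∈ T.image (trunc (m + 1)), trunc m z ∈ T.image (trunc m) := by
        intro z hz
        rw [Finset.mem_image] at hz ⊢
        obtain ⟨x, hx, rfl⟩ := hz
        exact ⟨x, hx, (trunc_trunc (Nat.le_succ m) x).symm⟩
      rw [← Finset.sum_fiberwise_of_maps_to hmaps]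
      have hfil : univ.filter (fun i : Fin t => i.val < m + 1) =
          insert (⟨m, by omega⟩ : Fin t) (univ.filter (fun i : Fin t => i.val < m)) := by
        ext i
        simp only [Finset.mem_filter, Finset.mem_univ, true_and, Finset.mem_insert]
        constructor
        · intro h
          rcases Nat.lt_succ_iff_lt_or_eq.1 h with h1 | h1
          · exact Or.inr h1
          · exact Or.inl (Fin.ext h1)
        · rintro (h | h)
          · rw [h]; simp
          · omega
      have hstep : ∀ z ∈ T.image (trunc m), ∑ z' ∈ (T.image (trunc (m + 1))).filter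
          (fun z' => trunc m z' = z), ∏ i ∈ univ.filter (fun i : Fin t => i.val < m + 1), ω i z' ≤
          (∏ i ∈ univ.filter (fun i : Fin t => i.val < m), ω i z) * B := by
        intro z hz
        rw [Finset.mem_image] at hz
        obtain ⟨x, hx, rfl⟩ := hz
        have h1 : ∀ z' ∈ (T.image (trunc (m + 1))).filter (fun z' => trunc m z' = trunc m x),
            ∏ i ∈ univ.filter (fun i : Fin t => i.val < m + 1), ω i z' =
            (∏ i ∈ univ.filter (fun i : Fin t => i.val < m), ω i (trunc m x)) * ω ⟨m, by omega⟩ z' := by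
          intro z' hz'
          rw [Finset.mem_filter] at hz'
          rw [hfil, Finset.prod_insert (by simp), mul_comm]
          congr 1
          apply Finset.prod_congr rfl
          intro i hi
          have hi' := (Finset.mem_filter.1 hi).2
          apply hloc
          intro j hj
          rw [← hz'.2]
          unfold trunc
          rw [if_pos (lt_of_le_of_lt (Fin.le_def.1 hj) hi')]
        rw [Finset.sum_congr rfl h1, ← Finset.mul_sum]
        apply mul_le_mul_of_nonneg_left
        · exact hsum ⟨m, by omega⟩ x hx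
        · exact Finset.prod_nonneg (fun i _ => hω i _)
      refine (Finset.sum_le_sum hstep).trans ?_
      calc ∑ z ∈ T.image (trunc m), (∏ i ∈ univ.filter (fun i : Fin t => i.val < m), ω i z) * B
          = (∑ z ∈ T.image (trunc m), ∏ i ∈ univ.filter (fun i : Fin t => i.val < m), ω i z) * B := by
            rw [Finset.sum_mul]
        _ ≤ B ^ m * B := mul_le_mul_of_nonneg_right ih hB
        _ = B ^ (m + 1) := by ring
  have h1 := key t le_rfl
  have h2 : T.image (trunc t) = T := by
    have : (trunc t : (Fin t → ℕ) → (Fin t → ℕ)) = id := by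
      funext x
      exact trunc_full x
    rw [this, Finset.image_id]
  have h3 : univ.filter (fun i : Fin t => i.val < t) = univ := by
    apply Finset.filter_true_of_mem
    intro i _
    exact i.isLt
  rw [h2, h3] at h1
  exact h1

/-- a sum over a set of pairwise congruent numbers -/
theorem sum_class (T : Finset ℕ) (M N y : ℕ) (hM : 1 ≤ M) (hy : y ≤ N) (hTN : ∀ x ∈ T, x ≤ N)
    (hcong : ∀ x ∈ T, ∀ x' ∈ T, (M : ℤ) ∣ (x : ℤ) - (x' : ℤ)) :
    ∑ x ∈ T, (max 1 (((((y : ℤ) - (x : ℤ)).natAbs : ℕ) : ℝ) / (M : ℝ)))⁻¹ ≤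
      4 * (1 + Real.log (N + 1)) := by
  classical
  have hMr : (0 : ℝ) < M := by exact_mod_cast hM
  -- one side
  have side : ∀ U : Finset ℕ, U ⊆ T → (∀ x ∈ U, ∀ x' ∈ U,
      ((y : ℤ) - (x : ℤ)).natAbs / M = ((y : ℤ) - (x' : ℤ)).natAbs / M → x = x') →
      ∑ x ∈ U, (max 1 (((((y : ℤ) - (x : ℤ)).natAbs : ℕ) : ℝ) / (M : ℝ)))⁻¹ ≤
      2 * (1 + Real.log (N + 1)) := by
    intro U hU hinj
    let f : ℕ → ℕ := fun x => ((y : ℤ) - (x : ℤ)).natAbs / M
    have hb : ∀ x ∈ U, (max 1 (((((y : ℤ) - (x : ℤ)).natAbs : ℕ) : ℝ) / (M : ℝ)))⁻¹ ≤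
        2 * ((f x : ℝ) + 1)⁻¹ := by
      intro x _
      set u := ((y : ℤ) - (x : ℤ)).natAbs with hu
      have h1 : (f x : ℝ) ≤ (u : ℝ) / M := by
        rw [le_div_iff₀ hMr]
        have : u / M * M ≤ u := Nat.div_mul_le_self u M
        exact_mod_cast this
      have hf0 : (0 : ℝ) ≤ f x := Nat.cast_nonneg _
      have h2 : ((f x : ℝ) + 1) / 2 ≤ max 1 ((u : ℝ) / M) := by
        rcases le_total (f x : ℝ) 1 with h | h
        · exact le_trans (by linarith) (le_max_left _ _)
        · exact le_trans (by linarith) (le_max_right _ _)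
      have h3 : (max 1 ((u : ℝ) / M))⁻¹ ≤ (((f x : ℝ) + 1) / 2)⁻¹ :=
        inv_anti₀ (by linarith) h2
      refine h3.trans (le_of_eq ?_)
      rw [inv_div, div_eq_mul_inv]
    have hfN : ∀ x ∈ U, f x ∈ Finset.range (N + 1) := by
      intro x hx
      rw [Finset.mem_range]
      have h1 : ((y : ℤ) - (x : ℤ)).natAbs ≤ N := by
        have := hTN x (hU hx)
        omega
      have h2 : f x ≤ ((y : ℤ) - (x : ℤ)).natAbs := Nat.div_le_self _ _
      omega
    calc ∑ x ∈ U, (max 1 (((((y : ℤ) - (x : ℤ)).natAbs : ℕ) : ℝ) / (M : ℝ)))⁻¹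
        ≤ ∑ x ∈ U, 2 * ((f x : ℝ) + 1)⁻¹ := Finset.sum_le_sum hb
      _ = ∑ q ∈ U.image f, 2 * ((q : ℝ) + 1)⁻¹ := by
          rw [Finset.sum_image]
          intro a ha b hb hab
          exact hinj a ha b hb hab
      _ ≤ ∑ q ∈ Finset.range (N + 1), 2 * ((q : ℝ) + 1)⁻¹ := by
          apply Finset.sum_le_sum_of_subset_of_nonneg
          · intro q hq
            rw [Finset.mem_image] at hq
            obtain ⟨x, hx, rfl⟩ := hq
            exact hfN x hx
          · intro q _ _
            have : (0 : ℝ) ≤ (q : ℝ) := Nat.cast_nonneg _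
            positivity
      _ = 2 * ((harmonic (N + 1) : ℚ) : ℝ) := by
          rw [← Finset.mul_sum]
          congr 1
          rw [harmonic]
          push_cast
          rfl
      _ ≤ 2 * (1 + Real.log (N + 1)) := by
          have := harmonic_le_one_add_log (N + 1)
          push_cast at this
          linarith
  have hsplit : ∑ x ∈ T, (max 1 (((((y : ℤ) - (x : ℤ)).natAbs : ℕ) : ℝ) / (M : ℝ)))⁻¹ =
      ∑ x ∈ T.filter (fun x => x < y), (max 1 (((((y : ℤ) - (x : ℤ)).natAbs : ℕ) : ℝ) / (M : ℝ)))⁻¹ +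
      ∑ x ∈ T.filter (fun x => ¬ x < y), (max 1 (((((y : ℤ) - (x : ℤ)).natAbs : ℕ) : ℝ) / (M : ℝ)))⁻¹ :=
    (Finset.sum_filter_add_sum_filter_not _ _ _).symm
  have hinj : ∀ x ∈ T, ∀ x' ∈ T, (x < y ↔ x' < y) →
      ((y : ℤ) - (x : ℤ)).natAbs / M = ((y : ℤ) - (x' : ℤ)).natAbs / M → x = x' := by
    intro x hx x' hx' hside hq
    have hdvd := hcong x hx x' hx'
    have e1 := Nat.div_add_mod ((y : ℤ) - (x : ℤ)).natAbs M
    have e2 := Nat.div_add_mod ((y : ℤ) - (x' : ℤ)).natAbs M
    have b1 := Nat.mod_lt ((y : ℤ) - (x : ℤ)).natAbs (show M > 0 by omega)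
    have b2 := Nat.mod_lt ((y : ℤ) - (x' : ℤ)).natAbs (show M > 0 by omega)
    rw [hq] at e1
    have hlt : ((x : ℤ) - (x' : ℤ)).natAbs < M := by
      by_cases hxy : x < y
      · have hx'y := hside.1 hxy
        omega
      · have hx'y : ¬ x' < y := fun h => hxy (hside.2 h)
        omega
    have h0 : (x : ℤ) - (x' : ℤ) = 0 := by
      apply Int.eq_zero_of_abs_lt_dvd hdvd
      rw [Int.abs_eq_natAbs]
      exact_mod_cast hlt
    omega
  rw [hsplit]
  have s1 := side (T.filter (fun x => x < y)) (Finset.filter_subset _ _) (by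
    intro x hx x' hx' hq
    rw [Finset.mem_filter] at hx hx'
    exact hinj x hx.1 x' hx'.1 ⟨fun _ => hx'.2, fun _ => hx.2⟩ hq)
  have s2 := side (T.filter (fun x => ¬ x < y)) (Finset.filter_subset _ _) (by
    intro x hx x' hx' hq
    rw [Finset.mem_filter] at hx hx'
    exact hinj x hx.1 x' hx'.1 ⟨fun h => absurd h hx.2, fun h => absurd h hx'.2⟩ hq)
  linarith

end Pool.Agent.Q264.VM
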