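import Pool.Agent.TH900.VPS.Card
import Pool.Agent.TH900.VPS.Str
import Pool.Agent.Q264.VM.Tree

/-! The sum over the choices of one variable. -/

set_option autoImplicit false

namespace Pool.Agent.Q264.VM

open Finset
open Pool.Agent.W89.VP
open Pool.Agent.W505.PV.VF (wf wf_mul_vf vf_pos)
open Pool.Agent.TH900.VPS (wf_pos prime_dvd_wf prime_dvd_vf wf_dvd vf_dvd ds_le' ds_pos' Vd_pos' Vd_le
  ds_dvd_Vd')

lemma dvd_ds {q u a : ℕ} : q ∣ ds u a ↔ (q : ℤ) ∣ (u : ℤ) - (a : ℤ) := by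
  unfold ds
  exact Int.natCast_dvd.symm

/-- the part of `|u - a|` that is new with respect to `D` -/
def hh (V u D a : ℕ) : ℕ := vf V (ds u a) / Nat.gcd (vf V (ds u a)) D

lemma hh_pos (V u D a : ℕ) : 1 ≤ hh V u D a := by
  unfold hh
  have h1 := vf_pos V (ds u a)
  exact Nat.div_pos (Nat.le_of_dvd h1 (Nat.gcd_dvd_left _ _)) (Nat.gcd_pos_of_pos_left _ h1)

lemma hh_real (V u D a : ℕ) (hu : u ≠ a) :
    (hh V u D a : ℝ) = (ds u a : ℝ) / ((wf V (ds u a) : ℝ) * (Nat.gcd (vf V (ds u a)) D : ℝ)) := by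
  have h0 : 1 ≤ ds u a := by unfold ds; omega
  have h1 := vf_pos V (ds u a)
  have h2 := wf_pos V (ds u a)
  have hg : 1 ≤ Nat.gcd (vf V (ds u a)) D := Nat.gcd_pos_of_pos_left _ h1
  have h3 : hh V u D a * Nat.gcd (vf V (ds u a)) D = vf V (ds u a) := by
    unfold hh
    exact Nat.div_mul_cancel (Nat.gcd_dvd_left _ _)
  have h4 : (wf V (ds u a) : ℝ) * (vf V (ds u a) : ℝ) = (ds u a : ℝ) := by
    exact_mod_cast wf_mul_vf V (ds u a) h0
  have h5 : (hh V u D a : ℝ) * (Nat.gcd (vf V (ds u a)) D : ℝ) = (vf V (ds u a) : ℝ) := by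
    exact_mod_cast h3
  have h2' : (0 : ℝ) < (wf V (ds u a) : ℝ) := by exact_mod_cast h2
  have hg' : (0 : ℝ) < (Nat.gcd (vf V (ds u a)) D : ℝ) := by exact_mod_cast hg
  rw [eq_div_iff (by positivity), ← h4, ← h5]
  ring

lemma cop_vf {n N : ℕ} {y : Fin n → ℕ} {i j : Fin n} (hij : i ≠ j) (a : ℕ)
    (hi : y i ≠ a) (hj : y j ≠ a) :
    Nat.Coprime (vf (Vd y) (ds (y i) a)) (vf (Vd y) (ds (y j) a)) := by
  rw [Nat.coprime_iff_gcd_eq_one]
  by_contra hne
  obtain ⟨p, hp, hpd⟩ := Nat.exists_prime_and_dvd hne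
  have h1 := prime_dvd_vf hp (hpd.trans (Nat.gcd_dvd_left _ _))
  have h2 := prime_dvd_vf hp (hpd.trans (Nat.gcd_dvd_right _ _))
  apply h1.2
  refine dvd_trans ?_ (ds_dvd_Vd' y hij)
  have e1 : (p : ℤ) ∣ (y i : ℤ) - a := dvd_ds.1 h1.1
  have e2 : (p : ℤ) ∣ (y j : ℤ) - a := dvd_ds.1 h2.1
  have e3 : (p : ℤ) ∣ (y i : ℤ) - y j := by
    have := dvd_sub e1 e2
    rwa [sub_sub_sub_cancel_right] at this
  exact dvd_ds.2 e3

lemma root_le (n : ℕ) (hn : 1 ≤ n) (X P : ℝ) (hX : 0 ≤ X) (h : X ^ n ≤ P) : X ≤ P ^ (1 / (n : ℝ)) := by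
  have hn' : (n : ℝ) ≠ 0 := by
    have : n ≠ 0 := by omega
    exact_mod_cast this
  have h4 : X = (X ^ n) ^ (1 / (n : ℝ)) := by
    rw [← Real.rpow_natCast, ← Real.rpow_mul hX, mul_one_div_cancel hn', Real.rpow_one]
  rw [h4]
  exact Real.rpow_le_rpow (pow_nonneg hX _) h (by positivity)

lemma lower {n N : ℕ} (hn : 1 ≤ n) {y : Fin n → ℕ} (D : Fin n → ℕ) (a : ℕ) (hy : ∀ j, y j ≠ a) :
    ∃ j0 j1 : Fin n, max 1 (((((y j0 : ℤ) - (a : ℤ)).natAbs : ℕ) : ℝ) /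
      ((wf (Vd y) (ds (y j1) a) * ∏ j, Nat.gcd (vf (Vd y) (ds (y j) a)) (D j) : ℕ) : ℝ)) ≤
      (((∏ j, hh (Vd y) (y j) (D j) a : ℕ) : ℝ)) ^ (1 / (n : ℝ)) := by
  have hne : Nonempty (Fin n) := ⟨⟨0, by omega⟩⟩
  obtain ⟨j0, h0⟩ := Finite.exists_min (fun j : Fin n => ds (y j) a)
  obtain ⟨j1, h1⟩ := Finite.exists_max (fun j : Fin n => wf (Vd y) (ds (y j) a))
  refine ⟨j0, j1, ?_⟩
  have hprod1 : 1 ≤ ∏ j, hh (Vd y) (y j) (D j) a := Finset.one_le_prod' (fun j _ => hh_pos _ _ _ _)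
  have hn' : (0 : ℝ) < n := by exact_mod_cast hn
  set w := wf (Vd y) (ds (y j1) a) with hw
  set E := ∏ j, Nat.gcd (vf (Vd y) (ds (y j) a)) (D j) with hE
  have hE1 : 1 ≤ E := Finset.one_le_prod' (fun j _ => Nat.gcd_pos_of_pos_left _ (vf_pos _ _))
  have hw1 : 1 ≤ w := wf_pos _ _
  have hEr : (1 : ℝ) ≤ E := by exact_mod_cast hE1
  have hwr : (1 : ℝ) ≤ w := by exact_mod_cast hw1
  have hu0 : (0 : ℝ) ≤ (ds (y j0) a : ℝ) := Nat.cast_nonneg _
  apply max_le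
  · apply Real.one_le_rpow
    · exact_mod_cast hprod1
    · positivity
  · have hkey : ((ds (y j0) a : ℝ) / ((w * E : ℕ) : ℝ)) ^ n ≤ ((∏ j, hh (Vd y) (y j) (D j) a : ℕ) : ℝ) := by
      have e1 : ((∏ j, hh (Vd y) (y j) (D j) a : ℕ) : ℝ) =
          (∏ j, ((ds (y j) a : ℝ) / (wf (Vd y) (ds (y j) a) : ℝ))) / (E : ℝ) := by
        rw [Nat.cast_prod, hE, Nat.cast_prod, ← Finset.prod_div_distrib]
        apply Finset.prod_congr rfl
        intro j _
        rw [hh_real _ _ _ _ (hy j), div_div]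
      rw [e1]
      have e2 : ((ds (y j0) a : ℝ) / (w : ℝ)) ^ n ≤
          ∏ j, ((ds (y j) a : ℝ) / (wf (Vd y) (ds (y j) a) : ℝ)) := by
        have : ((ds (y j0) a : ℝ) / (w : ℝ)) ^ n = ∏ _j : Fin n, ((ds (y j0) a : ℝ) / (w : ℝ)) := by
          rw [Finset.prod_const, Finset.card_univ, Fintype.card_fin]
        rw [this]
        apply Finset.prod_le_prod
        · intro j _
          positivity
        · intro j _
          have a1 : (ds (y j0) a : ℝ) ≤ ds (y j) a := by exact_mod_cast h0 j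
          have a2 : (wf (Vd y) (ds (y j) a) : ℝ) ≤ w := by exact_mod_cast h1 j
          have a3 : (0 : ℝ) < (wf (Vd y) (ds (y j) a) : ℝ) := by exact_mod_cast wf_pos _ _
          exact div_le_div₀ (Nat.cast_nonneg _) a1 a3 a2
      have e3 : ((ds (y j0) a : ℝ) / ((w * E : ℕ) : ℝ)) ^ n = ((ds (y j0) a : ℝ) / (w : ℝ)) ^ n / (E : ℝ) ^ n := by
        rw [Nat.cast_mul, ← div_div, div_pow ((ds (y j0) a : ℝ) / (w : ℝ)) (E : ℝ) n]
      rw [e3]
      have e4 : (E : ℝ) ≤ (E : ℝ) ^ n := by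
        calc (E : ℝ) = (E : ℝ) ^ 1 := (pow_one _).symm
          _ ≤ (E : ℝ) ^ n := pow_le_pow_right₀ hEr hn
      apply div_le_div₀ _ e2 (by linarith) e4
      exact Finset.prod_nonneg (fun j _ => by positivity)
    have hX0 : (0 : ℝ) ≤ (ds (y j0) a : ℝ) / ((w * E : ℕ) : ℝ) :=
      div_nonneg (Nat.cast_nonneg _) (Nat.cast_nonneg _)
    exact root_le n hn _ _ hX0 hkey

theorem child (n t : ℕ) (hn : 1 ≤ n) (ε : ℝ) (hε : 0 < ε) : ∃ C : ℝ, 0 < C ∧ ∀ N : ℕ, 1 ≤ N →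
    ∀ y : Fin n → ℕ, Good n N y → ∀ D : Fin n → ℕ, (∀ j, 1 ≤ D j ∧ D j ≤ N ^ t) → ∀ A : Finset ℕ,
    (∀ a ∈ A, (1 ≤ a ∧ a ≤ N) ∧ ∀ j, y j ≠ a) →
    ∑ a ∈ A, ((((∏ j, hh (Vd y) (y j) (D j) a : ℕ) : ℝ)) ^ (1 / (n : ℝ)))⁻¹ ≤ C * (N : ℝ) ^ ε := by
  classical
  have hne : Nonempty (Fin n) := ⟨⟨0, by omega⟩⟩
  set η : ℝ := ε / ((n : ℝ) * t + 2) with hη
  have hden : (0 : ℝ) < (n : ℝ) * t + 2 := by positivity
  have hη0 : 0 < η := div_pos hε hden
  obtain ⟨C1, hC1, hdiv⟩ := Pool.Agent.W505.PV.VF.mainDIV η hη0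
  obtain ⟨C2, hC2, hvin⟩ := Pool.Agent.W505.PV.Vinf.main Pool.Agent.W505.PV.VF.mainDIV (n * n) η hη0
  refine ⟨((n : ℝ) * n * (C1 ^ n * C2)) * (4 * (1 + 2 ^ η / η)), by
    have : (0 : ℝ) < n := by exact_mod_cast hn
    positivity, ?_⟩
  intro N hN y hy D hD A hA
  set V := Vd y with hV
  have hNr : (1 : ℝ) ≤ N := by exact_mod_cast hN
  have hN0 : (0 : ℝ) < N := by linarith
  have hlow := fun a (ha : a ∈ A) => lower (N := N) hn D a (hA a ha).2
  choose! J0 J1 hJ using hlow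
  let lab : ℕ → (Fin n × Fin n) × ((Fin n → ℕ) × ℕ) := fun a =>
    ((J0 a, J1 a), (fun j => Nat.gcd (vf V (ds (y j) a)) (D j), wf V (ds (y (J1 a)) a)))
  let SV : Finset ℕ := (Finset.Icc 1 N).filter (fun u => ∀ p ∈ u.primeFactors, p ∣ V)
  let LS : Finset ((Fin n × Fin n) × ((Fin n → ℕ) × ℕ)) :=
    (univ : Finset (Fin n × Fin n)) ×ˢ ((Fintype.piFinset (fun j => (D j).divisors)) ×ˢ SV)
  have hlab : ∀ a ∈ A, lab a ∈ LS := by
    intro a ha
    have ha' := hA a ha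
    have hds : 1 ≤ ds (y (J1 a)) a := by
      have := ha'.2 (J1 a)
      unfold ds; omega
    rw [Finset.mem_product, Finset.mem_product]
    refine ⟨Finset.mem_univ _, ?_, ?_⟩
    · rw [Fintype.mem_piFinset]
      intro j
      rw [Nat.mem_divisors]
      exact ⟨Nat.gcd_dvd_right _ _, by have := (hD j).1; omega⟩
    · rw [Finset.mem_filter, Finset.mem_Icc]
      refine ⟨⟨wf_pos _ _, ?_⟩, ?_⟩
      · exact (Nat.le_of_dvd hds (wf_dvd V _ hds)).trans (ds_le' (hy.2 _) ha'.1)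
      · intro p hp
        exact prime_dvd_wf (Nat.prime_of_mem_primeFactors hp) (Nat.dvd_of_mem_primeFactors hp)
  have hfib : ∀ ℓ ∈ LS, ∑ a ∈ A.filter (fun a => lab a = ℓ),
      ((((∏ j, hh V (y j) (D j) a : ℕ) : ℝ)) ^ (1 / (n : ℝ)))⁻¹ ≤ 4 * (1 + Real.log (N + 1)) := by
    intro ℓ hℓ
    obtain ⟨⟨j0, j1⟩, ⟨e, w⟩⟩ := ℓ
    rcases (A.filter (fun a => lab a = ((j0, j1), (e, w)))).eq_empty_or_nonempty with hemp | ⟨a0, ha0⟩
    · rw [hemp, Finset.sum_empty]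
      have : 0 ≤ Real.log ((N : ℝ) + 1) := Real.log_nonneg (by linarith)
      linarith
    have hdata : ∀ a ∈ A.filter (fun a => lab a = ((j0, j1), (e, w))), a ∈ A ∧ J0 a = j0 ∧ J1 a = j1 ∧
        (∀ j, Nat.gcd (vf V (ds (y j) a)) (D j) = e j) ∧ wf V (ds (y j1) a) = w := by
      intro a ha
      rw [Finset.mem_filter] at ha
      obtain ⟨ha, hl⟩ := ha
      simp only [lab, Prod.mk.injEq] at hl
      obtain ⟨⟨h1, h2⟩, h3, h4⟩ := hl
      refine ⟨ha, h1, h2, fun j => congrFun h3 j, ?_⟩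
      rw [← h2]; exact h4
    set M : ℕ := w * ∏ j, e j with hM
    have hM1 : 1 ≤ M := by
      obtain ⟨_, _, _, h3, h4⟩ := hdata a0 ha0
      have hw : 1 ≤ w := by rw [← h4]; exact wf_pos _ _
      have he : 1 ≤ ∏ j, e j := Finset.one_le_prod' (fun j _ => by
        rw [← h3 j]; exact Nat.gcd_pos_of_pos_left _ (vf_pos _ _))
      exact Nat.mul_pos hw he
    have hbound : ∀ a ∈ A.filter (fun a => lab a = ((j0, j1), (e, w))),
        ((((∏ j, hh V (y j) (D j) a : ℕ) : ℝ)) ^ (1 / (n : ℝ)))⁻¹ ≤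
        (max 1 (((((y j0 : ℤ) - (a : ℤ)).natAbs : ℕ) : ℝ) / (M : ℝ)))⁻¹ := by
      intro a ha
      obtain ⟨haA, h1, h2, h3, h4⟩ := hdata a ha
      have h5 := hJ a haA
      rw [h1, h2] at h5
      have h6 : wf V (ds (y j1) a) * ∏ j, Nat.gcd (vf V (ds (y j) a)) (D j) = M := by
        rw [h4, hM]
        congr 1
        exact Finset.prod_congr rfl (fun j _ => h3 j)
      rw [h6] at h5
      exact inv_anti₀ (lt_of_lt_of_le one_pos (le_max_left _ _)) h5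
    refine (Finset.sum_le_sum hbound).trans ?_
    apply sum_class _ M N (y j0) hM1 (hy.2 j0).2
    · intro a ha
      exact ((hA a (hdata a ha).1).1).2
    · intro a ha a' ha'
      obtain ⟨haA, h1, h2, h3, h4⟩ := hdata a ha
      obtain ⟨haA', h1', h2', h3', h4'⟩ := hdata a' ha'
      have hda := (hA a haA).2
      have hda' := (hA a' haA').2
      -- divisibility by each part
      have hcong : ∀ (q : ℕ) (j : Fin n), q ∣ ds (y j) a → q ∣ ds (y j) a' → (q : ℤ) ∣ (a : ℤ) - (a' : ℤ) := by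
        intro q j hq hq'
        have e1 : (q : ℤ) ∣ (y j : ℤ) - a := dvd_ds.1 hq
        have e2 : (q : ℤ) ∣ (y j : ℤ) - a' := dvd_ds.1 hq'
        have := dvd_sub e2 e1
        rwa [sub_sub_sub_cancel_left] at this
      have hdspos : ∀ j, 1 ≤ ds (y j) a := fun j => by have := hda j; unfold ds; omega
      have hdspos' : ∀ j, 1 ≤ ds (y j) a' := fun j => by have := hda' j; unfold ds; omega
      have hej : ∀ j, (e j : ℤ) ∣ (a : ℤ) - (a' : ℤ) := by
        intro j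
        apply hcong (e j) j
        · rw [← h3 j]
          exact (Nat.gcd_dvd_left _ _).trans (vf_dvd V _ (hdspos j))
        · rw [← h3' j]
          exact (Nat.gcd_dvd_left _ _).trans (vf_dvd V _ (hdspos' j))
      have hwj : (w : ℤ) ∣ (a : ℤ) - (a' : ℤ) := by
        apply hcong w j1
        · rw [← h4]; exact wf_dvd V _ (hdspos j1)
        · rw [← h4']; exact wf_dvd V _ (hdspos' j1)
      have hprod : ((∏ j, e j : ℕ) : ℤ) ∣ (a : ℤ) - (a' : ℤ) := by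
        rw [Nat.cast_prod]
        apply Finset.prod_dvd_of_coprime
        · intro i _ j _ hij
          rw [Function.onFun, Nat.isCoprime_iff_coprime, ← h3 i, ← h3 j]
          exact Nat.Coprime.coprime_dvd_left (Nat.gcd_dvd_left _ _)
            (Nat.Coprime.coprime_dvd_right (Nat.gcd_dvd_left _ _)
              (cop_vf (N := N) hij a (hda i) (hda j)))
        · intro j _
          exact hej j
      rw [hM, Nat.cast_mul]
      apply IsCoprime.mul_dvd _ hwj hprod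
      rw [Nat.isCoprime_iff_coprime]
      apply Nat.Coprime.prod_right
      intro j _
      rw [Nat.coprime_iff_gcd_eq_one]
      by_contra hne
      obtain ⟨p, hp, hpd⟩ := Nat.exists_prime_and_dvd hne
      have q1 := hpd.trans (Nat.gcd_dvd_left _ _)
      have q2 := hpd.trans (Nat.gcd_dvd_right _ _)
      rw [← h4] at q1
      rw [← h3 j] at q2
      exact (prime_dvd_vf hp (q2.trans (Nat.gcd_dvd_left _ _))).2 (prime_dvd_wf hp q1)
  have hLcard : (LS.card : ℝ) ≤ ((n : ℝ) * n * (C1 ^ n * C2)) * (N : ℝ) ^ ((n : ℝ) * t * η + η) := by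
    rw [Finset.card_product, Finset.card_product, Fintype.card_piFinset, Finset.card_univ,
      Fintype.card_prod, Fintype.card_fin]
    push_cast
    have h1 : ∏ j, ((D j).divisors.card : ℝ) ≤ C1 ^ n * (N : ℝ) ^ ((n : ℝ) * t * η) := by
      calc ∏ j, ((D j).divisors.card : ℝ) ≤ ∏ _j : Fin n, (C1 * (N : ℝ) ^ ((t : ℝ) * η)) := by
            apply Finset.prod_le_prod
            · intro j _; exact Nat.cast_nonneg _
            · intro j _
              refine (hdiv (D j) (hD j).1).trans ?_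
              apply mul_le_mul_of_nonneg_left _ hC1.le
              rw [Real.rpow_mul hN0.le, Real.rpow_natCast]
              apply Real.rpow_le_rpow (Nat.cast_nonneg _) _ hη0.le
              exact_mod_cast (hD j).2
        _ = (C1 * (N : ℝ) ^ ((t : ℝ) * η)) ^ n := by simp
        _ = C1 ^ n * (N : ℝ) ^ ((n : ℝ) * t * η) := by
            rw [mul_pow, ← Real.rpow_natCast ((N : ℝ) ^ ((t : ℝ) * η)), ← Real.rpow_mul hN0.le]
            congr 2
            ring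
    have h2 : (SV.card : ℝ) ≤ C2 * (N : ℝ) ^ η := hvin N V hN (Vd_pos' hy.1) (Vd_le hN hy)
    calc ((n : ℝ) * n) * ((∏ j, ((D j).divisors.card : ℝ)) * (SV.card : ℝ))
        ≤ ((n : ℝ) * n) * ((C1 ^ n * (N : ℝ) ^ ((n : ℝ) * t * η)) * (C2 * (N : ℝ) ^ η)) := by
          apply mul_le_mul_of_nonneg_left _ (by positivity)
          exact mul_le_mul h1 h2 (Nat.cast_nonneg _) (by positivity)
      _ = _ := by
          rw [Real.rpow_add hN0]
          ring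
  have hlog : 4 * (1 + Real.log ((N : ℝ) + 1)) ≤ (4 * (1 + 2 ^ η / η)) * (N : ℝ) ^ η := by
    have h1 : Real.log ((N : ℝ) + 1) ≤ ((N : ℝ) + 1) ^ η / η := Real.log_le_rpow_div (by linarith) hη0
    have h2 : ((N : ℝ) + 1) ^ η ≤ 2 ^ η * (N : ℝ) ^ η := by
      rw [← Real.mul_rpow (by norm_num) hN0.le]
      exact Real.rpow_le_rpow (by linarith) (by linarith) hη0.le
    have h3 : (1 : ℝ) ≤ (N : ℝ) ^ η := Real.one_le_rpow hNr hη0.le
    have h4 : ((N : ℝ) + 1) ^ η / η ≤ 2 ^ η / η * (N : ℝ) ^ η := by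
      rw [div_mul_eq_mul_div]
      exact div_le_div_of_nonneg_right h2 hη0.le
    nlinarith
  calc ∑ a ∈ A, ((((∏ j, hh V (y j) (D j) a : ℕ) : ℝ)) ^ (1 / (n : ℝ)))⁻¹
      = ∑ ℓ ∈ LS, ∑ a ∈ A.filter (fun a => lab a = ℓ),
        ((((∏ j, hh V (y j) (D j) a : ℕ) : ℝ)) ^ (1 / (n : ℝ)))⁻¹ :=
        (Finset.sum_fiberwise_of_maps_to hlab _).symm
    _ ≤ ∑ _ℓ ∈ LS, (4 * (1 + Real.log (N + 1))) := Finset.sum_le_sum hfib
    _ = (LS.card : ℝ) * (4 * (1 + Real.log (N + 1))) := by rw [Finset.sum_const, nsmul_eq_mul]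
    _ ≤ (((n : ℝ) * n * (C1 ^ n * C2)) * (N : ℝ) ^ ((n : ℝ) * t * η + η)) *
        ((4 * (1 + 2 ^ η / η)) * (N : ℝ) ^ η) := by
        apply mul_le_mul hLcard hlog
        · have : 0 ≤ Real.log ((N : ℝ) + 1) := Real.log_nonneg (by linarith)
          linarith
        · positivity
    _ = ((n : ℝ) * n * (C1 ^ n * C2)) * (4 * (1 + 2 ^ η / η)) *
        ((N : ℝ) ^ ((n : ℝ) * t * η + η) * (N : ℝ) ^ η) := by ring
    _ = _ := by
        rw [← Real.rpow_add hN0]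
        congr 2
        rw [hη]
        field_simp
        ring

end Pool.Agent.Q264.VM
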