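import Mathlib

/-! Many incongruent vectors modulo a subgroup defined by divisibility conditions. -/

set_option autoImplicit false

namespace Pool.Agent.Q264.VM

open Finset

theorem exists_classes {d n : ℕ} (L Λ' : AddSubgroup (Fin d → ℤ)) (f : Fin n → (Fin d → ℤ) →+ ℤ)
    (h : Fin n → ℕ) (hcop : ∀ i j, i ≠ j → Nat.Coprime (h i) (h j))
    (D : Fin n → ℤ) (hD : ∀ j, D j ≠ 0) (S : Fin n → (Fin d → ℤ)) (hS : ∀ j, S j ∈ L)
    (hfS : ∀ j, f j (S j) = D j) (hdvd : ∀ j, ∀ z ∈ L, D j ∣ f j z)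
    (hker : ∀ j, ∀ z ∈ L, z ∈ Λ' → D j * (h j : ℤ) ∣ f j z) :
    ∃ T : Finset (Fin d → ℤ), (∀ z ∈ T, z ∈ L) ∧ (∀ z ∈ T, ∀ z' ∈ T, z - z' ∈ Λ' → z = z') ∧
      T.card = ∏ j, h j := by
  classical
  let H : Fin n → ℤ := fun j => ∏ i ∈ univ.erase j, (h i : ℤ)
  let G : (Fin n → ℕ) → (Fin d → ℤ) := fun a => ∑ j, ((a j : ℤ) * H j) • S j
  have hHdvd : ∀ j j0, j ≠ j0 → (h j0 : ℤ) ∣ H j := by
    intro j j0 hj
    exact Finset.dvd_prod_of_mem _ (Finset.mem_erase.2 ⟨fun e => hj e.symm, Finset.mem_univ _⟩)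
  have hHcop : ∀ j, IsCoprime (h j : ℤ) (H j) := by
    intro j
    apply IsCoprime.prod_right
    intro i hi
    rw [Nat.isCoprime_iff_coprime]
    exact hcop j i (fun e => (Finset.mem_erase.1 hi).1 e.symm)
  have hGL : ∀ a, G a ∈ L := fun a => L.sum_mem (fun j _ => L.zsmul_mem (hS j) _)
  have key : ∀ a ∈ Fintype.piFinset (fun j => Finset.range (h j)),
      ∀ a' ∈ Fintype.piFinset (fun j => Finset.range (h j)), G a - G a' ∈ Λ' → a = a' := by
    intro a ha a' ha' hmem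
    funext j0
    rw [Fintype.mem_piFinset] at ha ha'
    have h1 := hker j0 _ (L.sub_mem (hGL a) (hGL a')) hmem
    have h2 : f j0 (G a - G a') = ∑ j, (((a j : ℤ) - (a' j : ℤ)) * H j) * f j0 (S j) := by
      rw [map_sub]
      simp only [G, map_sum, map_zsmul, smul_eq_mul]
      rw [← Finset.sum_sub_distrib]
      apply Finset.sum_congr rfl
      intro j _
      ring
    rw [h2, ← Finset.add_sum_erase _ _ (Finset.mem_univ j0)] at h1
    have h3 : D j0 * (h j0 : ℤ) ∣ ∑ j ∈ univ.erase j0, (((a j : ℤ) - (a' j : ℤ)) * H j) * f j0 (S j) := by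
      apply Finset.dvd_sum
      intro j hj
      have hj0 : j ≠ j0 := (Finset.mem_erase.1 hj).1
      obtain ⟨u, hu⟩ := hHdvd j j0 hj0
      obtain ⟨v, hv⟩ := hdvd j0 (S j) (hS j)
      rw [hu, hv]
      exact ⟨((a j : ℤ) - (a' j : ℤ)) * u * v, by ring⟩
    rw [dvd_add_left h3, hfS] at h1
    have h4 : (h j0 : ℤ) ∣ ((a j0 : ℤ) - (a' j0 : ℤ)) * H j0 := by
      have e1 : ((a j0 : ℤ) - (a' j0 : ℤ)) * H j0 * D j0 = D j0 * (((a j0 : ℤ) - (a' j0 : ℤ)) * H j0) := by
        ring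
      rw [e1] at h1
      exact (mul_dvd_mul_iff_left (hD j0)).1 h1
    have h5 : (h j0 : ℤ) ∣ ((a j0 : ℤ) - (a' j0 : ℤ)) := (hHcop j0).dvd_of_dvd_mul_right h4
    have b1 := Finset.mem_range.1 (ha j0)
    have b2 := Finset.mem_range.1 (ha' j0)
    obtain ⟨u, hu⟩ := h5
    have hu0 : u = 0 := by
      by_contra hne
      rcases lt_or_gt_of_ne hne with h6 | h6
      · have : (h j0 : ℤ) * u ≤ (h j0 : ℤ) * (-1) := by
          apply mul_le_mul_of_nonneg_left _ (Int.natCast_nonneg _)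
          omega
        omega
      · have : (h j0 : ℤ) * 1 ≤ (h j0 : ℤ) * u := by
          apply mul_le_mul_of_nonneg_left _ (Int.natCast_nonneg _)
          omega
        omega
    rw [hu0, mul_zero] at hu
    omega
  refine ⟨(Fintype.piFinset (fun j => Finset.range (h j))).image G, ?_, ?_, ?_⟩
  · intro z hz
    rw [Finset.mem_image] at hz
    obtain ⟨a, -, rfl⟩ := hz
    exact hGL a
  · intro z hz z' hz' hmem
    rw [Finset.mem_image] at hz hz'
    obtain ⟨a, ha, rfl⟩ := hz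
    obtain ⟨a', ha', rfl⟩ := hz'
    rw [key a ha a' ha' hmem]
  · rw [Finset.card_image_of_injOn, Fintype.card_piFinset]
    · simp
    · intro a ha a' ha' he
      apply key a ha a' ha'
      have : G a = G a' := he
      rw [this, sub_self]
      exact Λ'.zero_mem

end Pool.Agent.Q264.VM
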