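import Pool.Agent.Q264.VM.Main
import Pool.Agent.W154.PV.PV_DISJ

/-! Disjoint solutions of Vinogradov's system. -/

set_option autoImplicit false

namespace Pool.Agent.Q264.VM

open Finset Polynomial
open Pool.Agent.W89.VP
open Pool.Agent.W154.PV (mem_VD card_V2 uniq1 PP PP_eval_zero PP_eval)

lemma coeff_prod_bound {t N : ℕ} (x : Fin t → ℕ) (hx : ∀ i, x i ≤ N) (s : Finset (Fin t)) :
    ∀ a : ℕ, |(∏ i ∈ s, ((X : ℤ[X]) - C (x i : ℤ))).coeff a| * (N : ℤ) ^ a ≤
      2 ^ s.card * (N : ℤ) ^ s.card := by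
  classical
  induction s using Finset.induction_on with
  | empty =>
    intro a
    rw [Finset.prod_empty, Finset.card_empty, Polynomial.coeff_one]
    split_ifs with h
    · subst h; simp
    · simp
  | insert i s hi ih =>
    intro a
    rw [Finset.prod_insert hi, Finset.card_insert_of_notMem hi]
    set P := ∏ i ∈ s, ((X : ℤ[X]) - C (x i : ℤ)) with hP
    have hN0 : (0 : ℤ) ≤ N := Int.natCast_nonneg _
    have hxi : ((x i : ℕ) : ℤ) ≤ N := by exact_mod_cast hx i
    have hxi0 : (0 : ℤ) ≤ (x i : ℤ) := Int.natCast_nonneg _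
    set K : ℤ := 2 ^ s.card * (N : ℤ) ^ s.card with hK
    have hgoal : (2 : ℤ) ^ (s.card + 1) * (N : ℤ) ^ (s.card + 1) = 2 * (K * N) := by
      rw [hK]; ring
    rw [hgoal, sub_mul]
    have hsec : |(x i : ℤ) * P.coeff a| * (N : ℤ) ^ a ≤ K * N := by
      rw [abs_mul, abs_of_nonneg hxi0]
      calc (x i : ℤ) * |P.coeff a| * (N : ℤ) ^ a = (x i : ℤ) * (|P.coeff a| * (N : ℤ) ^ a) := by ring
        _ ≤ (N : ℤ) * (|P.coeff a| * (N : ℤ) ^ a) := by
            apply mul_le_mul_of_nonneg_right hxi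
            exact mul_nonneg (abs_nonneg _) (pow_nonneg hN0 _)
        _ ≤ (N : ℤ) * K := mul_le_mul_of_nonneg_left (ih a) hN0
        _ = K * N := by ring
    rcases a with _ | a
    · have h1 : (X * P - C (x i : ℤ) * P).coeff 0 = - ((x i : ℤ) * P.coeff 0) := by
        rw [Polynomial.coeff_sub, Polynomial.coeff_C_mul, Polynomial.coeff_X_mul_zero, zero_sub]
      rw [h1, abs_neg]
      have h0 : 0 ≤ K * N := le_trans (mul_nonneg (abs_nonneg _) (pow_nonneg hN0 _)) hsec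
      linarith
    · have h1 : (X * P - C (x i : ℤ) * P).coeff (a + 1) = P.coeff a - (x i : ℤ) * P.coeff (a + 1) := by
        rw [Polynomial.coeff_sub, Polynomial.coeff_C_mul, Polynomial.coeff_X_mul]
      rw [h1]
      have h2 : |P.coeff a| * (N : ℤ) ^ (a + 1) ≤ K * N := by
        calc |P.coeff a| * (N : ℤ) ^ (a + 1) = (|P.coeff a| * (N : ℤ) ^ a) * N := by ring
          _ ≤ K * N := mul_le_mul_of_nonneg_right (ih a) hN0
      have h3 : |P.coeff a - (x i : ℤ) * P.coeff (a + 1)| * (N : ℤ) ^ (a + 1) ≤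
          (|P.coeff a| + |(x i : ℤ) * P.coeff (a + 1)|) * (N : ℤ) ^ (a + 1) :=
        mul_le_mul_of_nonneg_right (abs_sub _ _) (pow_nonneg hN0 _)
      rw [add_mul] at h3
      linarith

/-- the size of the coefficients of the difference -/
def BB (d t N : ℕ) : Fin d → ℕ := fun a => 2 ^ (t + 1) * N ^ (t - a.val)

lemma BB_pos {d t N : ℕ} (hN : 1 ≤ N) (a : Fin d) : 1 ≤ BB d t N a :=
  Nat.one_le_iff_ne_zero.2 (Nat.mul_ne_zero (by positivity) (pow_ne_zero _ (by omega)))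

lemma coeff_diff {d t N : ℕ} (hN : 1 ≤ N) (hdt : d ≤ t) (x y : Fin t → ℕ) (hx : ∀ i, x i ≤ N)
    (hy : ∀ i, y i ≤ N) (a : Fin d) :
    |(PP x - PP y).coeff a.val| ≤ ((1 * BB d t N a : ℕ) : ℤ) := by
  have h1 := coeff_prod_bound x hx univ a.val
  have h2 := coeff_prod_bound y hy univ a.val
  have hNz : (0 : ℤ) < (N : ℤ) ^ a.val := by positivity
  have h3 : |(PP x - PP y).coeff a.val| * (N : ℤ) ^ a.val ≤
      ((1 * BB d t N a : ℕ) : ℤ) * (N : ℤ) ^ a.val := by
    rw [Polynomial.coeff_sub]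
    have h4 : |(PP x).coeff a.val - (PP y).coeff a.val| ≤ |(PP x).coeff a.val| + |(PP y).coeff a.val| :=
      abs_sub _ _
    have h5 := mul_le_mul_of_nonneg_right h4 hNz.le
    refine h5.trans ?_
    rw [add_mul]
    have h6 : ((1 * BB d t N a : ℕ) : ℤ) * (N : ℤ) ^ a.val = 2 * (2 ^ t * (N : ℤ) ^ t) := by
      unfold BB
      have ha : t - a.val + a.val = t := by have := a.isLt; omega
      push_cast
      calc 1 * (2 ^ (t + 1) * (N : ℤ) ^ (t - a.val)) * (N : ℤ) ^ a.val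
          = 2 * (2 ^ t * ((N : ℤ) ^ (t - a.val) * (N : ℤ) ^ a.val)) := by ring
        _ = _ := by rw [← pow_add, ha]
    rw [h6]
    rw [Finset.card_univ, Fintype.card_fin] at h1 h2
    unfold PP
    linarith
  exact le_of_mul_le_mul_right h3 hNz

lemma ev_coeff {d : ℕ} (hd : 1 ≤ d) (R : ℤ[X]) (hR : R.degree < (d : WithBot ℕ)) (a : ℤ) :
    ev a (fun i : Fin d => R.coeff i.val) = R.eval a := by
  have hnat : R.natDegree < d := by
    rcases eq_or_ne R 0 with h | h
    · rw [h, natDegree_zero]; omega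
    · exact (Polynomial.natDegree_lt_iff_degree_lt h).2 hR
  rw [Polynomial.eval_eq_sum_range' hnat, Finset.sum_range]
  rfl

open scoped Classical in
/-- fixed position and values -/
theorem card_S' (hNW : NEWTStm) {k r n N : ℕ} (hN : 1 ≤ N) (hr : 1 ≤ r) (hrn : r ≤ n)
    (e : Fin n → Fin (k + r)) (z : Fin n → ℕ) (hz : Function.Injective z) :
    ((VD (k + r) k N).filter (fun p => ∀ j, p.2 (e j) = z j)).card ≤
      (k + r).factorial * (ZB r n (k + r) N (BB r (k + r) N) z).card := by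
  set S := (VD (k + r) k N).filter (fun p => ∀ j, p.2 (e j) = z j) with hS
  have himg : S.image Prod.fst ⊆ ZB r n (k + r) N (BB r (k + r) N) z := by
    intro x hx
    rw [Finset.mem_image] at hx
    obtain ⟨p, hp, rfl⟩ := hx
    rw [hS, Finset.mem_filter, mem_VD] at hp
    obtain ⟨⟨⟨h1, h2⟩, h3, h4⟩, h5⟩ := hp
    have hdeg := hNW (k + r) k p.1 p.2 h3
    rw [show k + r - k = r by omega] at hdeg
    rw [mem_ZB]
    refine ⟨h1, ?_, fun a => (PP p.1 - PP p.2).coeff a.val, ?_, ?_⟩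
    · intro i j
      rw [← h5 j]
      exact h4 i (e j)
    · exact coeff_diff hN (by omega) p.1 p.2 (fun i => (h1 i).2) (fun i => (h2 i).2)
    · intro j
      have h6 := ev_coeff hr (PP p.1 - PP p.2) hdeg (z j : ℤ)
      refine h6.trans ?_
      rw [eval_sub, ← h5 j, PP_eval_zero, sub_zero, PP_eval]
  have hfib : ∀ b ∈ S.image Prod.fst, (S.filter fun p => p.1 = b).card ≤ (k + r).factorial := by
    intro b hb
    rw [Finset.mem_image] at hb
    obtain ⟨p0, hp0, rfl⟩ := hb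
    have hsub : (S.filter fun p => p.1 = p0.1) ⊆
        (univ : Finset (Equiv.Perm (Fin (k + r)))).image
          (fun σ : Equiv.Perm (Fin (k + r)) => (p0.1, fun i => p0.2 (σ i))) := by
      intro p hp
      rw [Finset.mem_filter] at hp
      obtain ⟨hp, hpe⟩ := hp
      rw [hS, Finset.mem_filter, mem_VD] at hp hp0
      obtain ⟨σ, hσ⟩ := uniq1 hNW hrn p0.1 p.2 p0.2 z e hz (by rw [← hpe]; exact hp.1.2.1) hp0.1.2.1
        hp.2 hp0.2
      rw [Finset.mem_image]
      refine ⟨σ, Finset.mem_univ _, ?_⟩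
      apply Prod.ext
      · exact hpe.symm
      · exact hσ.symm
    refine (Finset.card_le_card hsub).trans (Finset.card_image_le.trans ?_)
    rw [Finset.card_univ, Fintype.card_perm, Fintype.card_fin]
  have h6 := Finset.card_le_mul_card_image S _ hfib
  exact h6.trans (Nat.mul_le_mul_left _ (Finset.card_le_card himg))

/-- twice the sum of the exponents -/
lemma sum_exp (d t : ℕ) (hdt : d ≤ t) :
    2 * (∑ a : Fin d, (t - a.val)) + d * (d - 1) = 2 * (d * t) := by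
  have h1 : ∑ a : Fin d, (t - a.val) + ∑ a : Fin d, a.val = d * t := by
    rw [← Finset.sum_add_distrib]
    have : ∀ a : Fin d, t - a.val + a.val = t := fun a => by have := a.isLt; omega
    rw [Finset.sum_congr rfl (fun a _ => this a)]
    simp
  have h2 : (∑ a : Fin d, a.val) * 2 = d * (d - 1) := by
    rw [← Finset.sum_range (fun i => i)]
    exact Finset.sum_range_id_mul_two d
  omega

lemma prod_BB_le {d t N : ℕ} (hN : 1 ≤ N) :
    ∏ a, (2 * BB d t N a + 1) ≤ (3 * 2 ^ (t + 1)) ^ d * N ^ (∑ a : Fin d, (t - a.val)) := by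
  calc ∏ a, (2 * BB d t N a + 1) ≤ ∏ a : Fin d, ((3 * 2 ^ (t + 1)) * N ^ (t - a.val)) := by
        apply Finset.prod_le_prod'
        intro a _
        have h1 := BB_pos (t := t) hN a
        have h2 : (3 * 2 ^ (t + 1)) * N ^ (t - a.val) = 3 * BB d t N a := by unfold BB; ring
        rw [h2]
        omega
    _ = _ := by
        rw [Finset.prod_mul_distrib, Finset.prod_const, Finset.card_univ, Fintype.card_fin,
          Finset.prod_pow_eq_pow_sum]

/-- the bound for disjoint solutions -/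
theorem disj (hNW : NEWTStm) (k d n : ℕ) (hd : 1 ≤ d) (hdn : d ≤ n) (hnt : n ≤ k + d)
    (ε : ℝ) (hε : 0 < ε) :
    ∃ C : ℝ, 0 < C ∧ ∀ N : ℕ, 1 ≤ N → ((VD (k + d) k N).card : ℝ) ≤
      C * (N : ℝ) ^ ((n : ℝ) + ((d : ℝ) * ((k : ℝ) + d) - (d : ℝ) * (d - 1) / 2) / n +
        ((d : ℝ) - 1) + ε) := by
  classical
  obtain ⟨C0, hC0, hmain⟩ := mainZ d n (k + d) (by omega) (by omega) ε hε
  have hn0 : (0 : ℝ) < n := by
    have : 0 < n := by omega
    exact_mod_cast this
  set A : ℕ := ∑ a : Fin d, ((k + d) - a.val) with hA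
  have hAnat := sum_exp d (k + d) (by omega)
  have hAr : (A : ℝ) = (d : ℝ) * ((k : ℝ) + d) - (d : ℝ) * (d - 1) / 2 := by
    have h1 : ((2 * A + d * (d - 1) : ℕ) : ℝ) = ((2 * (d * (k + d)) : ℕ) : ℝ) := by
      rw [hA]; exact_mod_cast hAnat
    obtain ⟨e, rfl⟩ : ∃ e, d = e + 1 := ⟨d - 1, by omega⟩
    rw [Nat.add_sub_cancel] at h1
    push_cast at h1 ⊢
    linarith
  set K : ℝ := (((3 * 2 ^ (k + d + 1)) ^ d : ℕ) : ℝ) with hK
  have hKpos : (0 : ℝ) < K := by
    rw [hK]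
    have : 0 < (3 * 2 ^ (k + d + 1)) ^ d := by positivity
    exact_mod_cast this
  set C1 : ℝ := C0 * K ^ (1 / (n : ℝ)) with hC1def
  have hC1 : 0 < C1 := mul_pos hC0 (Real.rpow_pos_of_pos hKpos _)
  refine ⟨((k + d : ℕ) : ℝ) ^ n * ((k + d).factorial * C1) + k.factorial * (n : ℝ) ^ (k + d) + 1,
    by positivity, ?_⟩
  intro N hN1
  have hNr : (1 : ℝ) ≤ N := by exact_mod_cast hN1
  have hN0 : (0 : ℝ) < N := by linarith
  set B : ℝ := C1 * (N : ℝ) ^ ((A : ℝ) / n + ((d : ℝ) - 1) + ε) with hB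
  have hB0 : 0 ≤ B := by positivity
  -- the count for given y
  have hZ : ∀ y : Fin n → ℕ, Good n N y → ((ZB d n (k + d) N (BB d (k + d) N) y).card : ℝ) ≤ B := by
    intro y hy
    have h1 := hmain N hN1 y hy (BB d (k + d) N) (fun a => BB_pos hN1 a)
    refine h1.trans ?_
    have h2 : (((∏ a, (2 * BB d (k + d) N a + 1)) * (N ^ n) ^ (d - 1) : ℕ) : ℝ) ≤
        K * ((N : ℝ) ^ ((A : ℝ) + n * ((d : ℝ) - 1))) := by
      have h3 := Nat.mul_le_mul_right ((N ^ n) ^ (d - 1)) (prod_BB_le (d := d) (t := k + d) hN1)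
      have h4 : ((((3 * 2 ^ (k + d + 1)) ^ d * N ^ A) * (N ^ n) ^ (d - 1) : ℕ) : ℝ) =
          K * ((N : ℝ) ^ ((A : ℝ) + n * ((d : ℝ) - 1))) := by
        rw [hK, Real.rpow_add hN0, Real.rpow_natCast, Real.rpow_mul hN0.le, Real.rpow_natCast]
        have h5 : ((d : ℝ) - 1) = ((d - 1 : ℕ) : ℝ) := by
          rw [Nat.cast_sub hd]; simp
        rw [h5, Real.rpow_natCast]
        push_cast
        ring
      rw [← h4]
      exact_mod_cast h3
    have h6 : (((∏ a, (2 * BB d (k + d) N a + 1)) * (N ^ n) ^ (d - 1) : ℕ) : ℝ) ^ (1 / (n : ℝ)) ≤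
        K ^ (1 / (n : ℝ)) * (N : ℝ) ^ ((A : ℝ) / n + ((d : ℝ) - 1)) := by
      refine (Real.rpow_le_rpow (Nat.cast_nonneg _) h2 (by positivity)).trans (le_of_eq ?_)
      rw [Real.mul_rpow hKpos.le (Real.rpow_nonneg hN0.le _), ← Real.rpow_mul hN0.le]
      congr 2
      field_simp
    calc C0 * (N : ℝ) ^ ε * (((∏ a, (2 * BB d (k + d) N a + 1)) * (N ^ n) ^ (d - 1) : ℕ) : ℝ) ^
          (1 / (n : ℝ))
        ≤ C0 * (N : ℝ) ^ ε * (K ^ (1 / (n : ℝ)) * (N : ℝ) ^ ((A : ℝ) / n + ((d : ℝ) - 1))) :=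
          mul_le_mul_of_nonneg_left h6 (by positivity)
      _ = B := by
          rw [hB, hC1def, Real.rpow_add hN0 ((A : ℝ) / n + ((d : ℝ) - 1)) ε]
          ring
  -- case 1
  let I : Finset ((Fin n → Fin (k + d)) × (Fin n → ℕ)) :=
    ((univ : Finset (Fin n → Fin (k + d))) ×ˢ
      (Fintype.piFinset fun _ : Fin n => Finset.Icc 1 N)).filter (fun q => Function.Injective q.2)
  have hI : (I.card : ℝ) ≤ ((k + d : ℕ) : ℝ) ^ n * (N : ℝ) ^ n := by
    have h1 : I.card ≤ (k + d) ^ n * N ^ n := by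
      refine (Finset.card_filter_le _ _).trans ?_
      rw [Finset.card_product, Finset.card_univ, Fintype.card_piFinset]
      simp
    exact_mod_cast h1
  have hV1 : (((VD (k + d) k N).filter (fun p => ∃ e : Fin n → Fin (k + d),
      Function.Injective (fun j => p.2 (e j)))).card : ℝ) ≤
      (((k + d : ℕ) : ℝ) ^ n * (N : ℝ) ^ n) * ((k + d).factorial * B) := by
    have hsub : ((VD (k + d) k N).filter (fun p => ∃ e : Fin n → Fin (k + d),
        Function.Injective (fun j => p.2 (e j)))) ⊆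
        I.biUnion (fun q => (VD (k + d) k N).filter (fun p => ∀ j, p.2 (q.1 j) = q.2 j)) := by
      intro p hp
      rw [Finset.mem_filter] at hp
      obtain ⟨hp, e, he⟩ := hp
      rw [Finset.mem_biUnion]
      refine ⟨(e, fun j => p.2 (e j)), ?_, ?_⟩
      · rw [Finset.mem_filter, Finset.mem_product, Fintype.mem_piFinset]
        refine ⟨⟨Finset.mem_univ _, fun j => ?_⟩, he⟩
        exact Finset.mem_Icc.2 (((mem_VD p).1 hp).1.2 _)
      · rw [Finset.mem_filter]
        exact ⟨hp, fun j => rfl⟩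
    have h2 : ((I.biUnion (fun q => (VD (k + d) k N).filter (fun p => ∀ j, p.2 (q.1 j) = q.2 j))).card : ℝ)
        ≤ ∑ q ∈ I, (((VD (k + d) k N).filter (fun p => ∀ j, p.2 (q.1 j) = q.2 j)).card : ℝ) := by
      exact_mod_cast Finset.card_biUnion_le
    have h3 : ∀ q ∈ I, (((VD (k + d) k N).filter (fun p => ∀ j, p.2 (q.1 j) = q.2 j)).card : ℝ) ≤
        (k + d).factorial * B := by
      intro q hq
      rw [Finset.mem_filter, Finset.mem_product, Fintype.mem_piFinset] at hq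
      obtain ⟨⟨_, hq2⟩, hq3⟩ := hq
      have h4 := card_S' (N := N) hNW hN1 hd hdn q.1 q.2 hq3
      have h5 := hZ q.2 ⟨hq3, fun j => Finset.mem_Icc.1 (hq2 j)⟩
      calc (((VD (k + d) k N).filter (fun p => ∀ j, p.2 (q.1 j) = q.2 j)).card : ℝ)
          ≤ (((k + d).factorial * (ZB d n (k + d) N (BB d (k + d) N) q.2).card : ℕ) : ℝ) := by
            refine Nat.cast_le.2 ?_
            convert h4
        _ = (k + d).factorial * ((ZB d n (k + d) N (BB d (k + d) N) q.2).card : ℝ) := by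
            push_cast; ring
        _ ≤ (k + d).factorial * B := mul_le_mul_of_nonneg_left h5 (by positivity)
    calc _ ≤ ((I.biUnion (fun q => (VD (k + d) k N).filter
          (fun p => ∀ j, p.2 (q.1 j) = q.2 j))).card : ℝ) := by
          exact_mod_cast Finset.card_le_card hsub
      _ ≤ _ := h2
      _ ≤ ∑ q ∈ I, ((k + d).factorial * B : ℝ) := Finset.sum_le_sum h3
      _ = (I.card : ℝ) * ((k + d).factorial * B) := by rw [Finset.sum_const, nsmul_eq_mul]
      _ ≤ _ := mul_le_mul_of_nonneg_right hI (by positivity)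
  -- case 2
  have hV2 : (((VD (k + d) k N).filter (fun p => ¬ ∃ e : Fin n → Fin (k + d),
      Function.Injective (fun j => p.2 (e j)))).card : ℝ) ≤
      k.factorial * ((n : ℝ) ^ (k + d) * (N : ℝ) ^ n * (N : ℝ) ^ d) := by
    exact_mod_cast card_V2 (n := n) hNW hN1
  have hsum : ((VD (k + d) k N).card : ℝ) =
      (((VD (k + d) k N).filter (fun p => ∃ e : Fin n → Fin (k + d),
      Function.Injective (fun j => p.2 (e j)))).card : ℝ) +
      (((VD (k + d) k N).filter (fun p => ¬ ∃ e : Fin n → Fin (k + d),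
      Function.Injective (fun j => p.2 (e j)))).card : ℝ) := by
    exact_mod_cast (Finset.card_filter_add_card_filter_not _).symm
  -- exponents
  rw [← hAr]
  set E : ℝ := (n : ℝ) + (A : ℝ) / n + ((d : ℝ) - 1) + ε with hE
  have hE1 : (N : ℝ) ^ n * (N : ℝ) ^ ((A : ℝ) / n + ((d : ℝ) - 1) + ε) = (N : ℝ) ^ E := by
    rw [← Real.rpow_natCast, ← Real.rpow_add hN0, hE]
    congr 1
    ring
  have hnA : n ≤ A := by
    obtain ⟨e, rfl⟩ : ∃ e, d = e + 1 := ⟨d - 1, by omega⟩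
    rw [Nat.add_sub_cancel] at hAnat
    have : 2 * (k + (e + 1)) ≤ 2 * A := by
      rw [← hA] at hAnat
      nlinarith
    omega
  have hE2 : (N : ℝ) ^ n * (N : ℝ) ^ d ≤ (N : ℝ) ^ E := by
    rw [← Real.rpow_natCast, ← Real.rpow_natCast, ← Real.rpow_add hN0]
    apply Real.rpow_le_rpow_of_exponent_le hNr
    rw [hE]
    have h1 : (1 : ℝ) ≤ (A : ℝ) / n := by
      rw [le_div_iff₀ hn0, one_mul]
      exact_mod_cast hnA
    linarith
  set Q := (N : ℝ) ^ E with hQ
  have hQ0 : 0 < Q := Real.rpow_pos_of_pos hN0 _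
  rw [hsum]
  have t1 : (((k + d : ℕ) : ℝ) ^ n * (N : ℝ) ^ n) * ((k + d).factorial * B) ≤
      ((k + d : ℕ) : ℝ) ^ n * ((k + d).factorial * C1) * Q := by
    have : (((k + d : ℕ) : ℝ) ^ n * (N : ℝ) ^ n) * ((k + d).factorial * B) =
        (((k + d : ℕ) : ℝ) ^ n * ((k + d).factorial * C1)) *
          ((N : ℝ) ^ n * (N : ℝ) ^ ((A : ℝ) / n + ((d : ℝ) - 1) + ε)) := by
      rw [hB]; ring
    rw [this, hE1]
  have t2 : k.factorial * ((n : ℝ) ^ (k + d) * (N : ℝ) ^ n * (N : ℝ) ^ d) ≤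
      k.factorial * (n : ℝ) ^ (k + d) * Q := by
    have : (k.factorial : ℝ) * ((n : ℝ) ^ (k + d) * (N : ℝ) ^ n * (N : ℝ) ^ d) =
        (k.factorial * (n : ℝ) ^ (k + d)) * ((N : ℝ) ^ n * (N : ℝ) ^ d) := by ring
    rw [this]
    exact mul_le_mul_of_nonneg_left hE2 (by positivity)
  nlinarith [hV1, hV2, t1, t2, hQ0]

end Pool.Agent.Q264.VM
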