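import Pool.Agent.Q264.VM.Disj
import Pool.Agent.TH900.VPS.Final

/-! Assembly. -/

set_option autoImplicit false

namespace Pool.Agent.Q264.VM

open Finset
open Pool.Agent.W89.VP
open Pool.Agent.TH900.VPS (vn_bound split_VS)

/-- disjoint solutions -/
theorem vd (k d : ℕ) (hd : 1 ≤ d) (hk : d ≤ k) (ε : ℝ) (hε : 0 < ε) :
    ∃ C : ℝ, 0 < C ∧ ∀ N : ℕ, 1 ≤ N → ((VD (k + d) k N).card : ℝ) ≤
      C * (N : ℝ) ^ (Real.sqrt (2 * (d : ℝ) * (2 * (k : ℝ) + d + 1) + 1) + ((d : ℝ) - 1) + ε) := by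
  classical
  set t : ℕ := k + d with ht
  -- 2A = d (2t - d + 1) = d (2k + d + 1)
  set P : ℕ := d * (2 * k + d + 1) with hP
  have hex : ∃ n : ℕ, P ≤ 2 * (n * (n + 1)) := ⟨P, by nlinarith⟩
  set n : ℕ := Nat.find hex with hn
  have hn1 : P ≤ 2 * (n * (n + 1)) := Nat.find_spec hex
  have hn2 : 2 * (n * (n - 1)) ≤ P := by
    rcases Nat.eq_zero_or_pos n with h0 | h0
    · rw [h0]; simp
    · have h1 := Nat.find_min hex (m := n - 1) (by omega)
      have h2 : n - 1 + 1 = n := by omega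
      rw [h2] at h1
      rw [mul_comm n (n - 1)]
      omega
  have hdn : d ≤ n := by
    by_contra hcon
    push Not at hcon
    obtain ⟨e, he⟩ : ∃ e, d = e + 1 := ⟨d - 1, by omega⟩
    have h1 : n * (n + 1) ≤ e * (e + 1) := Nat.mul_le_mul (by omega) (by omega)
    have h2 : (e + 1) * (2 * (e + 1) + (e + 1) + 1) ≤ P := by
      rw [hP, he]
      exact Nat.mul_le_mul_left _ (by omega)
    nlinarith
  have hnt : n ≤ t := by
    apply Nat.find_min' hex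
    rw [hP, ht]
    have h1 : d * (2 * k + d + 1) ≤ (k + d) * (2 * (k + d + 1)) := Nat.mul_le_mul (by omega) (by omega)
    nlinarith
  have hn0 : 0 < n := by omega
  have hnr : (0 : ℝ) < n := by exact_mod_cast hn0
  obtain ⟨C, hC, hmain⟩ := disj Pool.Agent.W346.PV.Newt.main k d n hd hdn hnt ε hε
  refine ⟨C, hC, fun N hN => (hmain N hN).trans ?_⟩
  apply mul_le_mul_of_nonneg_left _ hC.le
  apply Real.rpow_le_rpow_of_exponent_le (by exact_mod_cast hN)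
  set A : ℝ := (d : ℝ) * ((k : ℝ) + d) - (d : ℝ) * (d - 1) / 2 with hA
  have hPA : (P : ℝ) = 2 * A := by
    rw [hP, hA]; push_cast; ring
  have h2 : (n : ℝ) + A / n ≤ Real.sqrt (2 * (d : ℝ) * (2 * (k : ℝ) + d + 1) + 1) := by
    apply Real.le_sqrt_of_sq_le
    have h3 : 2 * (d : ℝ) * (2 * (k : ℝ) + d + 1) + 1 = 4 * A + 1 := by
      rw [hA]; ring
    rw [h3]
    have h4 : A ≤ n * (n + 1) := by
      have : (P : ℝ) ≤ 2 * (n * (n + 1)) := by exact_mod_cast hn1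
      linarith
    have h5 : (n : ℝ) * (n - 1) ≤ A := by
      have : ((2 * (n * (n - 1)) : ℕ) : ℝ) ≤ (P : ℝ) := by exact_mod_cast hn2
      rw [Nat.cast_mul, Nat.cast_mul, Nat.cast_sub (by omega), Nat.cast_one] at this
      push_cast at this
      linarith
    have h6 : ((n : ℝ) - A / n) ^ 2 ≤ 1 := by
      rw [sq_le_one_iff_abs_le_one, abs_le]
      constructor
      · have : A / n ≤ n + 1 := by
          rw [div_le_iff₀ hnr]; linarith
        linarith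
      · have : (n : ℝ) - 1 ≤ A / n := by
          rw [le_div_iff₀ hnr]; linarith
        linarith
    have h7 : (n : ℝ) * (A / n) = A := by field_simp
    nlinarith
  linarith

theorem nondiag (s k : ℕ) (hks : k < s) (h2 : s ≤ 2 * k) (ε : ℝ) (hε : 0 < ε) :
    ∃ C : ℝ, 0 ≤ C ∧ ∀ N : ℕ, 1 ≤ N → ((VN s k N).card : ℝ) ≤ C * (N : ℝ) ^
      (Real.sqrt (2 * ((s : ℝ) - k) * ((s : ℝ) + k + 1) + 1) + ((s : ℝ) - k - 1) + ε) := by
  apply vn_bound (Pool.Agent.W156.PVRED.main Pool.Agent.W346.PV.Newt.main)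
  intro d hd hds
  obtain ⟨C, hC, h⟩ := vd k d hd (by omega) ε hε
  refine ⟨C, hC, fun N hN => (h N hN).trans ?_⟩
  apply mul_le_mul_of_nonneg_left _ hC.le
  apply Real.rpow_le_rpow_of_exponent_le (by exact_mod_cast hN)
  have hds' : (k : ℝ) + d ≤ s := by exact_mod_cast hds
  have hd' : (1 : ℝ) ≤ d := by exact_mod_cast hd
  have hk0 : (0 : ℝ) ≤ k := by positivity
  have h4 : Real.sqrt (2 * (d : ℝ) * (2 * (k : ℝ) + d + 1) + 1) ≤
      Real.sqrt (2 * ((s : ℝ) - k) * ((s : ℝ) + k + 1) + 1) := by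
    apply Real.sqrt_le_sqrt
    have h5 : (d : ℝ) * (2 * (k : ℝ) + d + 1) ≤ ((s : ℝ) - k) * ((s : ℝ) + k + 1) := by
      apply mul_le_mul (by linarith) (by linarith) (by positivity) (by linarith)
    linarith
  linarith

/-- the non-diagonal solutions, linear range -/
theorem nondiag_lin (s k : ℕ) (hks : k < s) (h2 : s ≤ 2 * k)
    (h : 2 * (s - k) * (s + k + 1) + 1 < k ^ 2) :
    ∃ C : ℝ, 0 ≤ C ∧ ∀ N : ℕ, 1 ≤ N → ((VN s k N).card : ℝ) ≤ C * (N : ℝ) ^ (s - 1) := by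
  have hroot : Real.sqrt (2 * ((s : ℝ) - k) * ((s : ℝ) + k + 1) + 1) < k := by
    rw [Real.sqrt_lt' (by have : 0 < k := by omega
                          exact_mod_cast this)]
    have h1 : (((2 * (s - k) * (s + k + 1) + 1 : ℕ)) : ℝ) < ((k ^ 2 : ℕ) : ℝ) := by exact_mod_cast h
    rw [Nat.cast_add, Nat.cast_mul, Nat.cast_mul, Nat.cast_sub hks.le] at h1
    push_cast at h1
    exact h1
  obtain ⟨C, hC, hh⟩ := nondiag s k hks h2 ((k : ℝ) -
    Real.sqrt (2 * ((s : ℝ) - k) * ((s : ℝ) + k + 1) + 1)) (by linarith)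
  refine ⟨C, hC, fun N hN => (hh N hN).trans (le_of_eq ?_)⟩
  rw [← Real.rpow_natCast, Nat.cast_sub (by omega)]
  congr 2
  push_cast
  ring

/-- the non-diagonal solutions, slightly wider range -/
theorem nondiag_lin2 (s k : ℕ) (hks : k < s) (h2 : s ≤ 2 * k)
    (h : 2 * (s - k) * (s + k + 1) + 1 < (k + 1) ^ 2) :
    ∃ C : ℝ, 0 ≤ C ∧ ∀ N : ℕ, 1 ≤ N → ((VN s k N).card : ℝ) ≤ C * (N : ℝ) ^ s := by
  have hroot : Real.sqrt (2 * ((s : ℝ) - k) * ((s : ℝ) + k + 1) + 1) < (k : ℝ) + 1 := by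
    rw [Real.sqrt_lt' (by positivity)]
    have h1 : (((2 * (s - k) * (s + k + 1) + 1 : ℕ)) : ℝ) < (((k + 1) ^ 2 : ℕ) : ℝ) := by
      exact_mod_cast h
    rw [Nat.cast_add, Nat.cast_mul, Nat.cast_mul, Nat.cast_sub hks.le] at h1
    push_cast at h1
    exact h1
  obtain ⟨C, hC, hh⟩ := nondiag s k hks h2 ((k : ℝ) + 1 -
    Real.sqrt (2 * ((s : ℝ) - k) * ((s : ℝ) + k + 1) + 1)) (by linarith)
  refine ⟨C, hC, fun N hN => (hh N hN).trans (le_of_eq ?_)⟩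
  rw [← Real.rpow_natCast]
  congr 2
  ring

/-- the bound asked for -/
theorem upper (s k : ℕ) (hks : k < s) (h2 : s ≤ 2 * k)
    (h : 2 * (s - k) * (s + k + 1) + 1 < (k + 1) ^ 2) :
    ∃ C : ℝ, ∀ N : ℕ, 1 ≤ N → ((VS s k N).card : ℝ) ≤ C * (N : ℝ) ^ s := by
  classical
  obtain ⟨C3, hC3, h6⟩ := nondiag_lin2 s k hks h2 h
  obtain ⟨C4, hC4, h4⟩ := Pool.Agent.W346.PV.Diag.main s (by omega)
  refine ⟨C3 + (s.factorial + C4), fun N hN => ?_⟩
  have hN1 : (1 : ℝ) ≤ N := by exact_mod_cast hN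
  have h5 := h4 N hN
  have h6' := h6 N hN
  rw [split_VS s k N]
  push_cast
  have h7 : (N : ℝ) ^ (s - 1) ≤ (N : ℝ) ^ s := pow_le_pow_right₀ hN1 (by omega)
  rw [abs_le] at h5
  nlinarith [h5.1, h5.2]

theorem asym (s k : ℕ) (hks : k < s) (h2 : s ≤ 2 * k)
    (h : 2 * (s - k) * (s + k + 1) + 1 < k ^ 2) :
    ∃ C : ℝ, ∀ N : ℕ, 1 ≤ N →
      |((VS s k N).card : ℝ) - (s.factorial : ℝ) * (N : ℝ) ^ s| ≤ C * (N : ℝ) ^ (s - 1) := by
  classical
  obtain ⟨C3, hC3, h6⟩ := nondiag_lin s k hks h2 h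
  obtain ⟨C4, hC4, h4⟩ := Pool.Agent.W346.PV.Diag.main s (by omega)
  refine ⟨C3 + C4, fun N hN => ?_⟩
  have hN0 : (0 : ℝ) < N := by positivity
  have hsplit := split_VS s k N
  have h5 := h4 N hN
  have h6' := h6 N hN
  rw [hsplit]
  push_cast
  have h7 : (0 : ℝ) ≤ ((VN s k N).card : ℝ) := by positivity
  rw [abs_le] at h5 ⊢
  constructor
  · nlinarith [h5.1, h5.2]
  · nlinarith [h5.1, h5.2]

end Pool.Agent.Q264.VM
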