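import Mathlib

/-! Lattice points of a subgroup of `ℤ^d` in a box: how their number drops when the subgroup shrinks. -/

set_option autoImplicit false

namespace Pool.Agent.Q264.VM

open Finset

/-- the vectors of integers with `i`-th coordinate at most `c * B i` in absolute value -/
noncomputable def box {d : ℕ} (B : Fin d → ℕ) (c : ℕ) : Finset (Fin d → ℤ) :=
  Fintype.piFinset (fun i => Finset.Icc (-((c * B i : ℕ) : ℤ)) ((c * B i : ℕ) : ℤ))

lemma mem_box {d : ℕ} {B : Fin d → ℕ} {c : ℕ} {S : Fin d → ℤ} :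
    S ∈ box B c ↔ ∀ i, |S i| ≤ ((c * B i : ℕ) : ℤ) := by
  unfold box
  rw [Fintype.mem_piFinset]
  refine forall_congr' (fun i => ?_)
  rw [Finset.mem_Icc, abs_le]

open scoped Classical in
/-- the points of the subgroup `Λ` in the box -/
noncomputable def pts {d : ℕ} (B : Fin d → ℕ) (c : ℕ) (Λ : AddSubgroup (Fin d → ℤ)) :
    Finset (Fin d → ℤ) := (box B c).filter (fun S => S ∈ Λ)

lemma mem_pts {d : ℕ} {B : Fin d → ℕ} {c : ℕ} {Λ : AddSubgroup (Fin d → ℤ)} {S : Fin d → ℤ} :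
    S ∈ pts B c Λ ↔ (∀ i, |S i| ≤ ((c * B i : ℕ) : ℤ)) ∧ S ∈ Λ := by
  unfold pts
  simp only [Finset.mem_filter, mem_box]

lemma pts_mono {d : ℕ} {B : Fin d → ℕ} {c : ℕ} {Λ Λ' : AddSubgroup (Fin d → ℤ)} (h : Λ' ≤ Λ) :
    pts B c Λ' ⊆ pts B c Λ := by
  intro S hS
  rw [mem_pts] at hS ⊢
  exact ⟨hS.1, h hS.2⟩

lemma zero_mem_pts {d : ℕ} {B : Fin d → ℕ} {c : ℕ} {Λ : AddSubgroup (Fin d → ℤ)} :
    (0 : Fin d → ℤ) ∈ pts B c Λ := by
  rw [mem_pts]
  refine ⟨fun i => ?_, Λ.zero_mem⟩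
  rw [Pi.zero_apply, abs_zero]
  exact Int.natCast_nonneg _

/-- cells -/
lemma card_pts_le {d : ℕ} (B : Fin d → ℕ) (hB : ∀ i, 1 ≤ B i) (c : ℕ)
    (Λ : AddSubgroup (Fin d → ℤ)) :
    (pts B c Λ).card ≤ (2 * c + 1) ^ d * (pts B 1 Λ).card := by
  classical
  let f : (Fin d → ℤ) → (Fin d → ℤ) := fun S i => S i / (B i : ℤ)
  have himg : (pts B c Λ).image f ⊆ Fintype.piFinset (fun _ : Fin d => Finset.Icc (-(c : ℤ)) c) := by
    intro T hT
    rw [Finset.mem_image] at hT
    obtain ⟨S, hS, rfl⟩ := hT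
    rw [Fintype.mem_piFinset]
    intro i
    rw [Finset.mem_Icc]
    have h1 := (mem_pts.1 hS).1 i
    have hBi : (0 : ℤ) < B i := by exact_mod_cast hB i
    rw [abs_le] at h1
    push_cast at h1
    refine ⟨?_, ?_⟩
    · show -(c : ℤ) ≤ S i / (B i : ℤ)
      rw [Int.le_ediv_iff_mul_le hBi]
      linarith [h1.1]
    · show S i / (B i : ℤ) ≤ c
      have : S i / (B i : ℤ) < c + 1 := by
        rw [Int.ediv_lt_iff_lt_mul hBi]
        nlinarith [h1.2]
      omega
  have hcells : ((pts B c Λ).image f).card ≤ (2 * c + 1) ^ d := by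
    refine (Finset.card_le_card himg).trans ?_
    rw [Fintype.card_piFinset]
    simp only [Int.card_Icc, Finset.prod_const, Finset.card_univ, Fintype.card_fin]
    apply le_of_eq
    congr 1
    omega
  have hfib : ∀ b ∈ (pts B c Λ).image f, ((pts B c Λ).filter (fun S => f S = b)).card ≤
      (pts B 1 Λ).card := by
    intro b hb
    rw [Finset.mem_image] at hb
    obtain ⟨S0, hS0, rfl⟩ := hb
    apply Finset.card_le_card_of_injOn (fun S => S - S0)
    · intro S hS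
      rw [Finset.mem_coe, Finset.mem_filter] at hS
      obtain ⟨hS, hf⟩ := hS
      rw [Finset.mem_coe, mem_pts]
      refine ⟨fun i => ?_, Λ.sub_mem (mem_pts.1 hS).2 (mem_pts.1 hS0).2⟩
      have h1 : S i / (B i : ℤ) = S0 i / (B i : ℤ) := congrFun hf i
      have hBi : (0 : ℤ) < B i := by exact_mod_cast hB i
      have e1 := Int.emod_add_mul_ediv (S i) (B i)
      have e2 := Int.emod_add_mul_ediv (S0 i) (B i)
      have b1 := Int.emod_nonneg (S i) hBi.ne'
      have b2 := Int.emod_nonneg (S0 i) hBi.ne'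
      have b3 := Int.emod_lt_of_pos (S i) hBi
      have b4 := Int.emod_lt_of_pos (S0 i) hBi
      rw [h1] at e1
      show |S i - S0 i| ≤ _
      push_cast
      rw [abs_le]
      constructor <;> linarith
    · intro S _ T _ h
      exact sub_left_injective h
  calc (pts B c Λ).card ≤ (pts B 1 Λ).card * ((pts B c Λ).image f).card :=
        Finset.card_le_mul_card_image _ _ hfib
    _ ≤ (pts B 1 Λ).card * (2 * c + 1) ^ d := Nat.mul_le_mul_left _ hcells
    _ = _ := mul_comm _ _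

/-- the real vector of an integer vector -/
def rv {d : ℕ} (S : Fin d → ℤ) : Fin d → ℝ := fun i => (S i : ℝ)

/-- the real span -/
noncomputable def rspan {d : ℕ} (P : Finset (Fin d → ℤ)) : Submodule ℝ (Fin d → ℝ) :=
  Submodule.span ℝ (rv '' (P : Set (Fin d → ℤ)))

lemma rv_mem_of_closure {d : ℕ} {P : Finset (Fin d → ℤ)} {z : Fin d → ℤ}
    (hz : z ∈ AddSubgroup.closure (P : Set (Fin d → ℤ))) : rv z ∈ rspan P := by
  refine AddSubgroup.closure_induction (p := fun z _ => rv z ∈ rspan P) ?_ ?_ ?_ ?_ hz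
  · intro x hx
    exact Submodule.subset_span ⟨x, hx, rfl⟩
  · have : rv (0 : Fin d → ℤ) = 0 := by
      funext i; simp [rv]
    rw [this]
    exact Submodule.zero_mem _
  · intro x y _ _ hx hy
    have : rv (x + y) = rv x + rv y := by
      funext i; simp [rv]
    rw [this]
    exact Submodule.add_mem _ hx hy
  · intro x _ hx
    have : rv (-x) = - rv x := by
      funext i; simp [rv]
    rw [this]
    exact Submodule.neg_mem _ hx

/-- reduction modulo the smaller lattice -/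
lemma reduce {d : ℕ} (B : Fin d → ℕ) (Λ Λ' : AddSubgroup (Fin d → ℤ)) (hle : Λ' ≤ Λ)
    (hsp : rspan (pts B 1 Λ') = rspan (pts B 1 Λ)) (z : Fin d → ℤ)
    (hz : z ∈ AddSubgroup.closure ((pts B 1 Λ : Finset (Fin d → ℤ)) : Set (Fin d → ℤ))) :
    ∃ z' ∈ pts B d Λ, z - z' ∈ Λ' := by
  classical
  have hzΛ : z ∈ Λ := by
    have : AddSubgroup.closure ((pts B 1 Λ : Finset (Fin d → ℤ)) : Set (Fin d → ℤ)) ≤ Λ := by
      rw [AddSubgroup.closure_le]
      intro S hS
      exact (mem_pts.1 (Finset.mem_coe.1 hS)).2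
    exact this hz
  obtain ⟨b, hb1, hb2, hb3⟩ := exists_linearIndependent ℝ
    (rv '' ((pts B 1 Λ' : Finset (Fin d → ℤ)) : Set (Fin d → ℤ)))
  have hbfin : b.Finite := ((Finset.finite_toSet _).image _).subset hb1
  have hzs : rv z ∈ Submodule.span ℝ b := by
    rw [hb2]
    have h1 := rv_mem_of_closure hz
    rw [← hsp] at h1
    exact h1
  lift b to Finset (Fin d → ℝ) using hbfin
  rw [Submodule.mem_span_finset'] at hzs
  obtain ⟨c, hc⟩ := hzs
  have hbcard : b.card ≤ d := by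
    have h1 := hb3.fintype_card_le_finrank
    simpa using h1
  have hpre : ∀ v : {x // x ∈ b}, ∃ S ∈ pts B 1 Λ', rv S = v.1 := by
    intro v
    obtain ⟨S, hS, hSv⟩ := hb1 v.2
    exact ⟨S, hS, hSv⟩
  choose p hp hpv using hpre
  refine ⟨z - ∑ v : {x // x ∈ b}, ⌊c v⌋ • p v, ?_, ?_⟩
  · rw [mem_pts]
    refine ⟨fun i => ?_, Λ.sub_mem hzΛ (Λ.sum_mem (fun v _ => Λ.zsmul_mem
      (hle (mem_pts.1 (hp v)).2) _))⟩
    have hzi : (z i : ℝ) = ∑ v : {x // x ∈ b}, c v * (p v i : ℝ) := by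
      have h1 := congrFun hc i
      rw [Finset.sum_apply] at h1
      show rv z i = _
      rw [← h1]
      apply Finset.sum_congr rfl
      intro v _
      rw [Pi.smul_apply, smul_eq_mul, ← hpv v]
      rfl
    have hreal : (((z - ∑ v : {x // x ∈ b}, ⌊c v⌋ • p v) i : ℤ) : ℝ) =
        ∑ v : {x // x ∈ b}, Int.fract (c v) * (p v i : ℝ) := by
      rw [Pi.sub_apply, Finset.sum_apply]
      push_cast
      rw [hzi, ← Finset.sum_sub_distrib]
      apply Finset.sum_congr rfl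
      intro v _
      rw [Pi.smul_apply, smul_eq_mul, Int.cast_mul, ← sub_mul, Int.self_sub_floor]
    have hbd : |(((z - ∑ v : {x // x ∈ b}, ⌊c v⌋ • p v) i : ℤ) : ℝ)| ≤ ((d * B i : ℕ) : ℝ) := by
      rw [hreal]
      calc |∑ v : {x // x ∈ b}, Int.fract (c v) * (p v i : ℝ)|
          ≤ ∑ v : {x // x ∈ b}, |Int.fract (c v) * (p v i : ℝ)| := Finset.abs_sum_le_sum_abs _ _
        _ ≤ ∑ _v : {x // x ∈ b}, (B i : ℝ) := by
            apply Finset.sum_le_sum
            intro v _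
            rw [abs_mul, abs_of_nonneg (Int.fract_nonneg _)]
            have h1 := (mem_pts.1 (hp v)).1 i
            have h2 : |(p v i : ℝ)| ≤ (B i : ℝ) := by
              rw [one_mul] at h1
              exact_mod_cast h1
            calc Int.fract (c v) * |(p v i : ℝ)| ≤ 1 * |(p v i : ℝ)| :=
                  mul_le_mul_of_nonneg_right (Int.fract_lt_one _).le (abs_nonneg _)
              _ ≤ _ := by rw [one_mul]; exact h2
        _ = (b.card : ℝ) * (B i : ℝ) := by simp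
        _ ≤ (d : ℝ) * (B i : ℝ) := mul_le_mul_of_nonneg_right (by exact_mod_cast hbcard)
            (Nat.cast_nonneg _)
        _ = _ := by push_cast; ring
    exact_mod_cast hbd
  · have : z - (z - ∑ v : {x // x ∈ b}, ⌊c v⌋ • p v) = ∑ v : {x // x ∈ b}, ⌊c v⌋ • p v := by abel
    rw [this]
    exact Λ'.sum_mem (fun v _ => Λ'.zsmul_mem (mem_pts.1 (hp v)).2 _)

/-- If the real span stays the same, the number of points drops by the number of classes. -/
theorem drop {d : ℕ} (B : Fin d → ℕ) (hB : ∀ i, 1 ≤ B i) (Λ Λ' : AddSubgroup (Fin d → ℤ))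
    (hle : Λ' ≤ Λ) (hsp : rspan (pts B 1 Λ') = rspan (pts B 1 Λ)) (T : Finset (Fin d → ℤ))
    (hT : ∀ z ∈ T, z ∈ AddSubgroup.closure ((pts B 1 Λ : Finset (Fin d → ℤ)) : Set (Fin d → ℤ)))
    (hinc : ∀ z ∈ T, ∀ z' ∈ T, z - z' ∈ Λ' → z = z') :
    T.card * (pts B 1 Λ').card ≤ (2 * (d + 1) + 1) ^ d * (pts B 1 Λ).card := by
  classical
  have hred := fun z (hz : z ∈ T) => reduce B Λ Λ' hle hsp z (hT z hz)
  choose! ρ hρ1 hρ2 using hred
  have hinj : Set.InjOn (fun q : (Fin d → ℤ) × (Fin d → ℤ) => ρ q.1 + q.2)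
      ((T ×ˢ pts B 1 Λ' : Finset _) : Set ((Fin d → ℤ) × (Fin d → ℤ))) := by
    rintro ⟨z1, v1⟩ h1 ⟨z2, v2⟩ h2 h
    rw [Finset.mem_coe, Finset.mem_product] at h1 h2
    simp only at h1 h2 h
    have e1 : z1 = z2 := by
      apply hinc z1 h1.1 z2 h2.1
      have a1 := hρ2 z1 h1.1
      have a2 := hρ2 z2 h2.1
      have a3 : ρ z1 - ρ z2 ∈ Λ' := by
        have : ρ z1 - ρ z2 = v2 - v1 := by
          rw [sub_eq_sub_iff_add_eq_add, h, add_comm]
        rw [this]
        exact Λ'.sub_mem (mem_pts.1 h2.2).2 (mem_pts.1 h1.2).2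
      have : z1 - z2 = (z1 - ρ z1) - (z2 - ρ z2) + (ρ z1 - ρ z2) := by abel
      rw [this]
      exact Λ'.add_mem (Λ'.sub_mem a1 a2) a3
    subst e1
    have : v1 = v2 := add_left_cancel h
    rw [this]
  have hmaps : Set.MapsTo (fun q : (Fin d → ℤ) × (Fin d → ℤ) => ρ q.1 + q.2)
      ((T ×ˢ pts B 1 Λ' : Finset _) : Set ((Fin d → ℤ) × (Fin d → ℤ)))
      ((pts B (d + 1) Λ : Finset (Fin d → ℤ)) : Set (Fin d → ℤ)) := by
    rintro ⟨z, v⟩ h
    rw [Finset.mem_coe, Finset.mem_product] at h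
    simp only at h
    rw [Finset.mem_coe, mem_pts]
    have a1 := mem_pts.1 (hρ1 z h.1)
    have a2 := mem_pts.1 h.2
    refine ⟨fun i => ?_, Λ.add_mem a1.2 (hle a2.2)⟩
    have b1 := a1.1 i
    have b2 := a2.1 i
    show |ρ z i + v i| ≤ _
    refine (abs_add_le _ _).trans ?_
    push_cast at b1 b2 ⊢
    linarith
  have hcard := Finset.card_le_card_of_injOn _ hmaps hinj
  rw [Finset.card_product] at hcard
  exact hcard.trans (card_pts_le B hB (d + 1) Λ)

end Pool.Agent.Q264.VM
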