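import Pool.Agent.Q264.VM.State
import Pool.Agent.Q264.VM.Tree

/-! The number of `x` for given distinct `y_j`. -/

set_option autoImplicit false

namespace Pool.Agent.Q264.VM

open Finset
open Pool.Agent.W89.VP
open Pool.Agent.W505.PV.VF (wf wf_mul_vf vf_pos)
open Pool.Agent.TH900.VPS (wf_pos prime_dvd_wf prime_dvd_vf wf_dvd vf_dvd ds_le' ds_pos' Vd_pos' Vd_le
  ds_dvd_Vd')

open scoped Classical in
/-- `x` avoids the `y j`, and the values of `∏ (X - x_i)` at the `y j` are those of a polynomial with `d`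
coefficients bounded by the `B a`. -/
noncomputable def ZB (d n t N : ℕ) (B : Fin d → ℕ) (y : Fin n → ℕ) : Finset (Fin t → ℕ) :=
  (Fintype.piFinset fun _ : Fin t => Finset.Icc 1 N).filter (fun x =>
    (∀ i j, x i ≠ y j) ∧ ∃ S : Fin d → ℤ, (∀ a, |S a| ≤ ((1 * B a : ℕ) : ℤ)) ∧
      ∀ j, ev (y j : ℤ) S = ∏ i, ((y j : ℤ) - (x i : ℤ)))

lemma mem_ZB {d n t N : ℕ} {B : Fin d → ℕ} {y : Fin n → ℕ} {x : Fin t → ℕ} :
    x ∈ ZB d n t N B y ↔ (∀ i, 1 ≤ x i ∧ x i ≤ N) ∧ (∀ i j, x i ≠ y j) ∧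
      ∃ S : Fin d → ℤ, (∀ a, |S a| ≤ ((1 * B a : ℕ) : ℤ)) ∧
      ∀ j, ev (y j : ℤ) S = ∏ i, ((y j : ℤ) - (x i : ℤ)) := by
  classical
  unfold ZB
  simp only [Finset.mem_filter, Fintype.mem_piFinset, Finset.mem_Icc]

lemma QQ_dvd {n t : ℕ} (y : Fin n → ℕ) (x : Fin t → ℕ) (m : ℕ) (j : Fin n) (h : ∀ i, x i ≠ y j) :
    (QQ y x m j : ℤ) ∣ ∏ i, ((y j : ℤ) - (x i : ℤ)) := by
  unfold QQ
  rw [Nat.cast_prod]
  have h1 : ∏ i ∈ univ.filter (fun i : Fin t => i.val < m), ((vf (Vd y) (ds (y j) (x i)) : ℕ) : ℤ) ∣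
      ∏ i ∈ univ.filter (fun i : Fin t => i.val < m), ((y j : ℤ) - (x i : ℤ)) := by
    apply Finset.prod_dvd_prod_of_dvd
    intro i _
    apply dvd_ds.1
    apply vf_dvd
    have := h i
    unfold ds
    omega
  refine h1.trans ?_
  exact Finset.prod_dvd_prod_of_subset _ _ _ (Finset.filter_subset _ _)

lemma prod_abs_le {t N : ℕ} (y : ℕ) (hy : 1 ≤ y ∧ y ≤ N) (x : Fin t → ℕ)
    (hx : ∀ i, 1 ≤ x i ∧ x i ≤ N) : |∏ i, ((y : ℤ) - (x i : ℤ))| ≤ (N : ℤ) ^ t := by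
  rw [Finset.abs_prod]
  calc ∏ i : Fin t, |(y : ℤ) - (x i : ℤ)| ≤ ∏ _i : Fin t, (N : ℤ) := by
        apply Finset.prod_le_prod
        · intro i _; exact abs_nonneg _
        · intro i _
          have h1 := hx i
          rw [abs_le]
          omega
    _ = (N : ℤ) ^ t := by simp

/-- facts about the state at time `m` -/
lemma state {d n t N : ℕ} (hn : 1 ≤ n) {B : Fin d → ℕ} {y : Fin n → ℕ} (hy : Good n N y)
    {x : Fin t → ℕ} (hx : x ∈ ZB d n t N B y) (m : ℕ) :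
    (∀ j, Dg B y (QQ y x m) j ≠ 0) ∧ (∀ j, Dg B y (QQ y x m) j ≤ N ^ t) ∧
    1 ≤ (Pt B y (QQ y x m)).card ∧ 1 ≤ rk B y (QQ y x m) := by
  obtain ⟨hx1, hx2, S, hS1, hS2⟩ := mem_ZB.1 hx
  have hmem : S ∈ Pt B y (QQ y x m) := by
    unfold Pt
    rw [mem_pts]
    refine ⟨hS1, mem_Lam.2 (fun j => ?_)⟩
    rw [hS2 j]
    exact QQ_dvd y x m j (fun i => hx2 i j)
  have hcl : S ∈ Cl B y (QQ y x m) := AddSubgroup.subset_closure (Finset.mem_coe.2 hmem)
  have hne : ∀ j, ev (y j : ℤ) S ≠ 0 := by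
    intro j
    rw [hS2 j, Finset.prod_ne_zero_iff]
    intro i _ h
    have := hx2 i j
    omega
  have hS0 : S ≠ 0 := by
    intro h
    apply hne ⟨0, by omega⟩
    rw [h, map_zero]
  have hdv : ∀ j, (Dg B y (QQ y x m) j : ℤ) ∣ ev (y j : ℤ) S := fun j => Dg_dvd B y _ j hcl
  refine ⟨fun j h => ?_, fun j => ?_, Finset.card_pos.2 ⟨S, hmem⟩, rk_pos B y _ hmem hS0⟩
  · have h1 := hdv j
    rw [h, Nat.cast_zero, zero_dvd_iff] at h1
    exact hne j h1
  · have h1 : (Dg B y (QQ y x m) j : ℤ) ≤ |ev (y j : ℤ) S| :=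
      Int.le_of_dvd (abs_pos.2 (hne j)) ((dvd_abs _ _).2 (hdv j))
    rw [hS2 j] at h1
    have h2 := h1.trans (prod_abs_le (y j) (hy.2 j) x hx1)
    exact_mod_cast h2

/-- the number of children classes at `x` in step `i` -/
noncomputable def HH {d n t : ℕ} (B : Fin d → ℕ) (y : Fin n → ℕ) (i : Fin t) (x : Fin t → ℕ) : ℕ :=
  ∏ j, hh (Vd y) (y j) (Dg B y (QQ y x i.val) j / QQ y x i.val j) (x i)

lemma HH_pos {d n t : ℕ} (B : Fin d → ℕ) (y : Fin n → ℕ) (i : Fin t) (x : Fin t → ℕ) :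
    1 ≤ HH B y i x := Finset.one_le_prod' (fun _ _ => hh_pos _ _ _ _)

/-- the potential -/
lemma potential {d n t N : ℕ} (hn : 1 ≤ n) {B : Fin d → ℕ} (hB : ∀ i, 1 ≤ B i) {y : Fin n → ℕ}
    (hy : Good n N y) {x : Fin t → ℕ} (hx : x ∈ ZB d n t N B y) (m : ℕ) (hm : m ≤ t) :
    (∏ i ∈ univ.filter (fun i : Fin t => i.val < m), HH B y i x) *
      ((Pt B y (QQ y x m)).card * (N ^ n) ^ rk B y (QQ y x m)) ≤
      ((2 * (d + 1) + 1) ^ d) ^ m * ((Pt B y (QQ y x 0)).card * (N ^ n) ^ rk B y (QQ y x 0)) := by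
  obtain ⟨hx1, hx2, _⟩ := mem_ZB.1 hx
  induction m with
  | zero => simp
  | succ m ih =>
    have ih := ih (by omega)
    have hfil : univ.filter (fun i : Fin t => i.val < m + 1) =
        insert (⟨m, by omega⟩ : Fin t) (univ.filter (fun i : Fin t => i.val < m)) := by
      ext i
      simp only [Finset.mem_filter, Finset.mem_univ, true_and, Finset.mem_insert]
      constructor
      · intro h
        rcases Nat.lt_succ_iff_lt_or_eq.1 h with h1 | h1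
        · exact Or.inr h1
        · exact Or.inl (Fin.ext h1)
      · rintro (h | h)
        · rw [h]; simp
        · omega
    rw [hfil, Finset.prod_insert (by simp)]
    have hst := step (N := N) B hB y hy (QQ y x m) (fun j => QQ_pos y x m j) (x ⟨m, by omega⟩)
      (hx1 _) (fun j => (hx2 _ j).symm) (state hn hy hx m).1 (QQ y x (m + 1))
      (fun j => QQ_succ y x m (by omega) j)
    have hHH : HH B y (⟨m, by omega⟩ : Fin t) x =
        ∏ j, hh (Vd y) (y j) (Dg B y (QQ y x m) j / QQ y x m j) (x ⟨m, by omega⟩) := rfl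
    rw [hHH]
    set P := ∏ i ∈ univ.filter (fun i : Fin t => i.val < m), HH B y i x
    set H := ∏ j, hh (Vd y) (y j) (Dg B y (QQ y x m) j / QQ y x m j) (x ⟨m, by omega⟩)
    calc H * P * ((Pt B y (QQ y x (m + 1))).card * (N ^ n) ^ rk B y (QQ y x (m + 1)))
        = P * (H * (Pt B y (QQ y x (m + 1))).card * (N ^ n) ^ rk B y (QQ y x (m + 1))) := by ring
      _ ≤ P * ((2 * (d + 1) + 1) ^ d * (Pt B y (QQ y x m)).card * (N ^ n) ^ rk B y (QQ y x m)) :=
          Nat.mul_le_mul_left _ hst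
      _ = (2 * (d + 1) + 1) ^ d *
          (P * ((Pt B y (QQ y x m)).card * (N ^ n) ^ rk B y (QQ y x m))) := by ring
      _ ≤ (2 * (d + 1) + 1) ^ d * (((2 * (d + 1) + 1) ^ d) ^ m *
          ((Pt B y (QQ y x 0)).card * (N ^ n) ^ rk B y (QQ y x 0))) := Nat.mul_le_mul_left _ ih
      _ = _ := by rw [pow_succ]; ring

/-- the final inequality for one `x` -/
lemma final_one {d n t N : ℕ} (hN : 1 ≤ N) (hn : 1 ≤ n) {B : Fin d → ℕ} (hB : ∀ i, 1 ≤ B i)
    {y : Fin n → ℕ} (hy : Good n N y) {x : Fin t → ℕ} (hx : x ∈ ZB d n t N B y) :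
    ∏ i, HH B y i x ≤ ((2 * (d + 1) + 1) ^ d) ^ t * ((∏ a, (2 * B a + 1)) * (N ^ n) ^ (d - 1)) := by
  have h1 := potential hn hB hy hx t le_rfl
  have h3 : univ.filter (fun i : Fin t => i.val < t) = univ := by
    apply Finset.filter_true_of_mem
    intro i _
    exact i.isLt
  rw [h3] at h1
  obtain ⟨_, _, hc, hr⟩ := state hn hy hx t
  have hNn : 1 ≤ N ^ n := Nat.one_le_pow _ _ hN
  have hcard0 : (Pt B y (QQ y x 0)).card ≤ ∏ a, (2 * B a + 1) := by
    classical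
    refine (Finset.card_filter_le _ _).trans ?_
    unfold box
    rw [Fintype.card_piFinset]
    apply Finset.prod_le_prod'
    intro a _
    rw [Int.card_Icc]
    push_cast
    omega
  have hr0 := rk_le B y (QQ y x 0)
  have hd : 1 ≤ d := (state hn hy hx 0).2.2.2.trans hr0
  have h4 : (∏ i, HH B y i x) * N ^ n ≤
      (∏ i, HH B y i x) * ((Pt B y (QQ y x t)).card * (N ^ n) ^ rk B y (QQ y x t)) := by
    apply Nat.mul_le_mul_left
    calc N ^ n = 1 * (N ^ n) ^ 1 := by ring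
      _ ≤ _ := Nat.mul_le_mul hc (Nat.pow_le_pow_right hNn hr)
  have h5 : (Pt B y (QQ y x 0)).card * (N ^ n) ^ rk B y (QQ y x 0) ≤
      (∏ a, (2 * B a + 1)) * (N ^ n) ^ d :=
    Nat.mul_le_mul hcard0 (Nat.pow_le_pow_right hNn hr0)
  have h6 : (∏ i, HH B y i x) * N ^ n ≤
      (((2 * (d + 1) + 1) ^ d) ^ t * ((∏ a, (2 * B a + 1)) * (N ^ n) ^ (d - 1))) * N ^ n := by
    calc _ ≤ _ := h4
      _ ≤ _ := h1
      _ ≤ ((2 * (d + 1) + 1) ^ d) ^ t * ((∏ a, (2 * B a + 1)) * (N ^ n) ^ d) :=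
          Nat.mul_le_mul_left _ h5
      _ = _ := by
          obtain ⟨e, rfl⟩ : ∃ e, d = e + 1 := ⟨d - 1, by omega⟩
          rw [Nat.add_sub_cancel, pow_succ (N ^ n) e]
          ring
  exact Nat.le_of_mul_le_mul_right h6 hNn

theorem mainZ (d n t : ℕ) (hn : 1 ≤ n) (ht : 1 ≤ t) (ε : ℝ) (hε : 0 < ε) :
    ∃ C : ℝ, 0 < C ∧ ∀ N : ℕ, 1 ≤ N → ∀ y : Fin n → ℕ, Good n N y → ∀ B : Fin d → ℕ, (∀ a, 1 ≤ B a) →
    ((ZB d n t N B y).card : ℝ) ≤
      C * (N : ℝ) ^ ε * (((∏ a, (2 * B a + 1)) * (N ^ n) ^ (d - 1) : ℕ) : ℝ) ^ (1 / (n : ℝ)) := by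
  classical
  have htr : (0 : ℝ) < t := by exact_mod_cast ht
  have hnr : (0 : ℝ) < n := by exact_mod_cast hn
  obtain ⟨C1, hC1, hchild⟩ := child n t hn (ε / t) (div_pos hε htr)
  refine ⟨C1 ^ t * ((((2 * (d + 1) + 1) ^ d) ^ t : ℕ) : ℝ) ^ (1 / (n : ℝ)), by positivity, ?_⟩
  intro N hN y hy B hB
  have hN0 : (0 : ℝ) < N := by exact_mod_cast hN
  set T := ZB d n t N B y with hT
  set ω : Fin t → (Fin t → ℕ) → ℝ := fun i x => (((HH B y i x : ℕ) : ℝ) ^ (1 / (n : ℝ)))⁻¹ with hω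
  have hω0 : ∀ i x, 0 ≤ ω i x := by
    intro i x
    rw [hω]
    exact inv_nonneg.2 (Real.rpow_nonneg (Nat.cast_nonneg _) _)
  have hloc : ∀ i x x', (∀ j, j ≤ i → x j = x' j) → ω i x = ω i x' := by
    intro i x x' h
    have hQ : QQ y x i.val = QQ y x' i.val := QQ_congr y x x' i.val (fun j hj =>
      h j (le_of_lt (Fin.lt_def.2 hj)))
    have : HH B y i x = HH B y i x' := by
      unfold HH
      rw [hQ, h i le_rfl]
    rw [hω]
    simp only [this]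
  have hsum : ∀ i : Fin t, ∀ x ∈ T, ∑ z ∈ (T.image (trunc (i.val + 1))).filter
      (fun z => trunc i.val z = trunc i.val x), ω i z ≤ C1 * (N : ℝ) ^ (ε / t) := by
    intro i x hx
    set F := (T.image (trunc (i.val + 1))).filter (fun z => trunc i.val z = trunc i.val x) with hF
    have hFz : ∀ z ∈ F, ∃ x' ∈ T, z = trunc (i.val + 1) x' ∧ z i = x' i ∧ ∀ j, j < i → z j = x j := by
      intro z hz
      rw [hF, Finset.mem_filter, Finset.mem_image] at hz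
      obtain ⟨⟨x', hx', rfl⟩, h2⟩ := hz
      refine ⟨x', hx', rfl, ?_, ?_⟩
      · unfold trunc
        rw [if_pos (Nat.lt_succ_self _)]
      · intro j hj
        have h3 := congrFun h2 j
        rw [trunc_trunc (Nat.le_succ _)] at h3
        unfold trunc at h3 ⊢
        have hj' : j.val < i.val := Fin.lt_def.1 hj
        rw [if_pos hj', if_pos hj'] at h3
        rw [if_pos (by omega), h3]
    have hinj : ∀ z ∈ F, ∀ z' ∈ F, z i = z' i → z = z' := by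
      intro z hz z' hz' h
      obtain ⟨x1, _, e1, _, g1⟩ := hFz z hz
      obtain ⟨x2, _, e2, _, g2⟩ := hFz z' hz'
      funext j
      rcases lt_trichotomy j i with hj | hj | hj
      · rw [g1 j hj, g2 j hj]
      · rw [hj]; exact h
      · have hj' : ¬ j.val < i.val + 1 := by
          have := Fin.lt_def.1 hj
          omega
        rw [e1, e2]
        unfold trunc
        rw [if_neg hj', if_neg hj']
    set D : Fin n → ℕ := fun j => Dg B y (QQ y x i.val) j / QQ y x i.val j with hD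
    have hQx : ∀ z ∈ F, QQ y z i.val = QQ y x i.val := by
      intro z hz
      obtain ⟨_, _, _, _, g⟩ := hFz z hz
      exact QQ_congr y z x i.val (fun j hj => g j (Fin.lt_def.2 hj))
    have hωz : ∀ z ∈ F, ω i z =
        ((((∏ j, hh (Vd y) (y j) (D j) (z i) : ℕ) : ℝ)) ^ (1 / (n : ℝ)))⁻¹ := by
      intro z hz
      have h1 : HH B y i z = ∏ j, hh (Vd y) (y j) (D j) (z i) := by
        unfold HH
        rw [hQx z hz]
      rw [hω]
      simp only [h1]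
    rw [Finset.sum_congr rfl hωz]
    rw [← Finset.sum_image (s := F) (g := fun z : Fin t → ℕ => z i)
      (f := fun a => ((((∏ j, hh (Vd y) (y j) (D j) a : ℕ) : ℝ)) ^ (1 / (n : ℝ)))⁻¹)
      (fun z hz z' hz' h => hinj z hz z' hz' h)]
    apply hchild N hN y hy D
    · intro j
      obtain ⟨h1, h2, _, _⟩ := state hn hy hx i.val
      have hq := QQ_pos y x i.val j
      have hdv := q_dvd_Dg B y (QQ y x i.val) j
      refine ⟨?_, (Nat.div_le_self _ _).trans (h2 j)⟩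
      exact Nat.div_pos (Nat.le_of_dvd (Nat.pos_of_ne_zero (h1 j)) hdv) hq
    · intro a ha
      rw [Finset.mem_image] at ha
      obtain ⟨z, hz, rfl⟩ := ha
      obtain ⟨x', hx', _, e, _⟩ := hFz z hz
      obtain ⟨g1, g2, _⟩ := mem_ZB.1 hx'
      rw [e]
      exact ⟨g1 i, fun j => (g2 i j).symm⟩
  have htree := tree T ω (C1 * (N : ℝ) ^ (ε / t)) (by positivity) hω0 hloc hsum
  -- each x contributes
  set X : ℝ := (((∏ a, (2 * B a + 1)) * (N ^ n) ^ (d - 1) : ℕ) : ℝ) with hX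
  set K : ℝ := ((((2 * (d + 1) + 1) ^ d) ^ t : ℕ) : ℝ) with hK
  have hX0 : 0 ≤ X := Nat.cast_nonneg _
  have hK0 : 0 ≤ K := Nat.cast_nonneg _
  have hone : ∀ x ∈ T, 1 ≤ (K ^ (1 / (n : ℝ)) * X ^ (1 / (n : ℝ))) * ∏ i, ω i x := by
    intro x hx
    have h1 := final_one hN hn hB hy hx
    have h2 : ((∏ i, HH B y i x : ℕ) : ℝ) ≤ K * X := by
      rw [hK, hX]
      exact_mod_cast h1
    have h3 : (1 : ℝ) ≤ ((∏ i, HH B y i x : ℕ) : ℝ) := by
      exact_mod_cast Finset.one_le_prod' (fun i _ => HH_pos B y i x)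
    have h4 : ∏ i, ω i x = ((((∏ i, HH B y i x : ℕ) : ℝ)) ^ (1 / (n : ℝ)))⁻¹ := by
      rw [hω]
      simp only
      rw [Finset.prod_inv_distrib, Nat.cast_prod, Real.finsetProd_rpow]
      intro i _
      exact Nat.cast_nonneg _
    rw [h4, ← div_eq_mul_inv, le_div_iff₀ (Real.rpow_pos_of_pos (by linarith) _), one_mul,
      ← Real.mul_rpow hK0 hX0]
    exact Real.rpow_le_rpow (by linarith) h2 (by positivity)
  calc (T.card : ℝ) = ∑ _x ∈ T, (1 : ℝ) := by simp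
    _ ≤ ∑ x ∈ T, (K ^ (1 / (n : ℝ)) * X ^ (1 / (n : ℝ))) * ∏ i, ω i x := Finset.sum_le_sum hone
    _ = (K ^ (1 / (n : ℝ)) * X ^ (1 / (n : ℝ))) * ∑ x ∈ T, ∏ i, ω i x := by rw [Finset.mul_sum]
    _ ≤ (K ^ (1 / (n : ℝ)) * X ^ (1 / (n : ℝ))) * (C1 * (N : ℝ) ^ (ε / t)) ^ t := by
        apply mul_le_mul_of_nonneg_left htree
        positivity
    _ = C1 ^ t * K ^ (1 / (n : ℝ)) * (N : ℝ) ^ ε * X ^ (1 / (n : ℝ)) := by
        rw [mul_pow, ← Real.rpow_natCast ((N : ℝ) ^ (ε / t)) t, ← Real.rpow_mul hN0.le,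
          div_mul_cancel₀ _ htr.ne']
        ring

end Pool.Agent.Q264.VM
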