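import Pool.Agent.Q264.VM.Child
import Pool.Agent.Q264.VM.Geo
import Pool.Agent.Q264.VM.Cls

/-! The lattice attached to the first variables, and the potential inequality. -/

set_option autoImplicit false

namespace Pool.Agent.Q264.VM

open Finset
open Pool.Agent.W89.VP
open Pool.Agent.W505.PV.VF (wf wf_mul_vf vf_pos)
open Pool.Agent.TH900.VPS (wf_pos prime_dvd_wf prime_dvd_vf wf_dvd vf_dvd ds_le' ds_pos' Vd_pos' Vd_le
  ds_dvd_Vd')

/-- evaluation of the polynomial with coefficients `S` -/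
def ev {d : ℕ} (a : ℤ) : (Fin d → ℤ) →+ ℤ where
  toFun S := ∑ i : Fin d, S i * a ^ i.val
  map_zero' := by simp
  map_add' S T := by
    rw [← Finset.sum_add_distrib]
    apply Finset.sum_congr rfl
    intro i _
    rw [Pi.add_apply, add_mul]

/-- the product of the parts coprime to `Vd y` of the first `m` differences -/
def QQ {n t : ℕ} (y : Fin n → ℕ) (z : Fin t → ℕ) (m : ℕ) (j : Fin n) : ℕ :=
  ∏ i ∈ univ.filter (fun i : Fin t => i.val < m), vf (Vd y) (ds (y j) (z i))

lemma QQ_congr {n t : ℕ} (y : Fin n → ℕ) (z z' : Fin t → ℕ) (m : ℕ)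
    (h : ∀ i : Fin t, i.val < m → z i = z' i) : QQ y z m = QQ y z' m := by
  funext j
  unfold QQ
  apply Finset.prod_congr rfl
  intro i hi
  rw [h i (Finset.mem_filter.1 hi).2]

lemma QQ_pos {n t : ℕ} (y : Fin n → ℕ) (z : Fin t → ℕ) (m : ℕ) (j : Fin n) : 1 ≤ QQ y z m j :=
  Finset.one_le_prod' (fun _ _ => vf_pos _ _)

lemma QQ_succ {n t : ℕ} (y : Fin n → ℕ) (z : Fin t → ℕ) (m : ℕ) (hm : m < t) (j : Fin n) :
    QQ y z (m + 1) j = QQ y z m j * vf (Vd y) (ds (y j) (z ⟨m, hm⟩)) := by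
  unfold QQ
  have hfil : univ.filter (fun i : Fin t => i.val < m + 1) =
      insert (⟨m, hm⟩ : Fin t) (univ.filter (fun i : Fin t => i.val < m)) := by
    ext i
    simp only [Finset.mem_filter, Finset.mem_univ, true_and, Finset.mem_insert]
    constructor
    · intro h
      rcases Nat.lt_succ_iff_lt_or_eq.1 h with h1 | h1
      · exact Or.inr h1
      · exact Or.inl (Fin.ext h1)
    · rintro (h | h)
      · rw [h]; simp
      · omega
  rw [hfil, Finset.prod_insert (by simp), mul_comm]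

/-- the polynomials whose values at the `y j` are divisible by the `q j` -/
def Lam (d : ℕ) {n : ℕ} (y q : Fin n → ℕ) : AddSubgroup (Fin d → ℤ) :=
  ⨅ j, (AddSubgroup.zmultiples ((q j : ℕ) : ℤ)).comap (ev (y j : ℤ))

lemma mem_Lam {d n : ℕ} {y q : Fin n → ℕ} {S : Fin d → ℤ} :
    S ∈ Lam d y q ↔ ∀ j, (q j : ℤ) ∣ ev (y j : ℤ) S := by
  unfold Lam
  rw [AddSubgroup.mem_iInf]
  refine forall_congr' (fun j => ?_)
  rw [AddSubgroup.mem_comap, Int.mem_zmultiples_iff]

lemma exists_gen (H : AddSubgroup ℤ) : ∃ g : ℕ, ∀ z : ℤ, z ∈ H ↔ (g : ℤ) ∣ z := by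
  obtain ⟨a, ha⟩ := Int.subgroup_cyclic H
  refine ⟨a.natAbs, fun z => ?_⟩
  rw [ha, ← AddSubgroup.zmultiples_eq_closure, Int.mem_zmultiples_iff, Int.natAbs_dvd]

/-- the nonnegative generator of a subgroup of the integers -/
noncomputable def gen (H : AddSubgroup ℤ) : ℕ := Classical.choose (exists_gen H)

lemma mem_iff_gen (H : AddSubgroup ℤ) (z : ℤ) : z ∈ H ↔ (gen H : ℤ) ∣ z :=
  Classical.choose_spec (exists_gen H) z

/-- the points -/
noncomputable def Pt {d n : ℕ} (B : Fin d → ℕ) (y q : Fin n → ℕ) : Finset (Fin d → ℤ) :=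
  pts B 1 (Lam d y q)

/-- the group they generate -/
noncomputable def Cl {d n : ℕ} (B : Fin d → ℕ) (y q : Fin n → ℕ) : AddSubgroup (Fin d → ℤ) :=
  AddSubgroup.closure ((Pt B y q : Finset (Fin d → ℤ)) : Set (Fin d → ℤ))

/-- the greatest common divisor of the values at `y j` -/
noncomputable def Dg {d n : ℕ} (B : Fin d → ℕ) (y q : Fin n → ℕ) (j : Fin n) : ℕ :=
  gen ((Cl B y q).map (ev (y j : ℤ)))

lemma Cl_le {d n : ℕ} (B : Fin d → ℕ) (y q : Fin n → ℕ) : Cl B y q ≤ Lam d y q := by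
  unfold Cl
  rw [AddSubgroup.closure_le]
  intro S hS
  exact (mem_pts.1 (Finset.mem_coe.1 hS)).2

lemma Dg_dvd {d n : ℕ} (B : Fin d → ℕ) (y q : Fin n → ℕ) (j : Fin n) {S : Fin d → ℤ}
    (hS : S ∈ Cl B y q) : (Dg B y q j : ℤ) ∣ ev (y j : ℤ) S :=
  (mem_iff_gen _ _).1 (AddSubgroup.mem_map_of_mem _ hS)

lemma Dg_mem {d n : ℕ} (B : Fin d → ℕ) (y q : Fin n → ℕ) (j : Fin n) :
    ∃ S ∈ Cl B y q, ev (y j : ℤ) S = (Dg B y q j : ℤ) := by
  have h : (Dg B y q j : ℤ) ∈ (Cl B y q).map (ev (y j : ℤ)) := (mem_iff_gen _ _).2 dvd_rfl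
  rw [AddSubgroup.mem_map] at h
  exact h

lemma q_dvd_Dg {d n : ℕ} (B : Fin d → ℕ) (y q : Fin n → ℕ) (j : Fin n) : q j ∣ Dg B y q j := by
  obtain ⟨S, hS, hv⟩ := Dg_mem B y q j
  have h1 := mem_Lam.1 (Cl_le B y q hS) j
  rw [hv] at h1
  exact_mod_cast h1

/-- the rank -/
noncomputable def rk {d n : ℕ} (B : Fin d → ℕ) (y q : Fin n → ℕ) : ℕ :=
  Module.finrank ℝ (rspan (Pt B y q))

lemma rk_le {d n : ℕ} (B : Fin d → ℕ) (y q : Fin n → ℕ) : rk B y q ≤ d := by
  unfold rk
  have := Submodule.finrank_le (rspan (Pt B y q))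
  simpa using this

lemma rk_pos {d n : ℕ} (B : Fin d → ℕ) (y q : Fin n → ℕ) {S : Fin d → ℤ} (hS : S ∈ Pt B y q)
    (h0 : S ≠ 0) : 1 ≤ rk B y q := by
  unfold rk
  have hmem : rv S ∈ rspan (Pt B y q) := Submodule.subset_span ⟨S, hS, rfl⟩
  have hne : rv S ≠ 0 := by
    intro h
    apply h0
    funext i
    have := congrFun h i
    simp only [rv, Pi.zero_apply, Int.cast_eq_zero] at this
    exact this
  have hbot : rspan (Pt B y q) ≠ ⊥ := by
    intro h
    rw [h, Submodule.mem_bot] at hmem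
    exact hne hmem
  exact Submodule.one_le_finrank_iff.2 hbot

lemma Lam_mono {d n : ℕ} {y q q' : Fin n → ℕ} (h : ∀ j, q j ∣ q' j) : Lam d y q' ≤ Lam d y q := by
  intro S hS
  rw [mem_Lam] at hS ⊢
  intro j
  exact dvd_trans (by exact_mod_cast h j) (hS j)

/-- one step -/
theorem step {d n N : ℕ} (B : Fin d → ℕ) (hB : ∀ i, 1 ≤ B i) (y : Fin n → ℕ)
    (hy : Good n N y) (q : Fin n → ℕ) (hq : ∀ j, 1 ≤ q j) (a : ℕ) (ha : 1 ≤ a ∧ a ≤ N)
    (hay : ∀ j, y j ≠ a) (hD : ∀ j, Dg B y q j ≠ 0) (q' : Fin n → ℕ)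
    (hq' : ∀ j, q' j = q j * vf (Vd y) (ds (y j) a)) :
    (∏ j, hh (Vd y) (y j) (Dg B y q j / q j) a) * (Pt B y q').card * (N ^ n) ^ rk B y q' ≤
      (2 * (d + 1) + 1) ^ d * (Pt B y q).card * (N ^ n) ^ rk B y q := by
  classical
  have hle : Lam d y q' ≤ Lam d y q := Lam_mono (fun j => ⟨_, hq' j⟩)
  have hsub : Pt B y q' ⊆ Pt B y q := pts_mono hle
  have hspan : rspan (Pt B y q') ≤ rspan (Pt B y q) :=
    Submodule.span_mono (Set.image_mono (by exact_mod_cast hsub))
  by_cases heq : rspan (Pt B y q') = rspan (Pt B y q)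
  · -- the rank stays the same
    have hrk : rk B y q' = rk B y q := by unfold rk; rw [heq]
    choose S hS1 hS2 using fun j => Dg_mem B y q j
    set h : Fin n → ℕ := fun j => hh (Vd y) (y j) (Dg B y q j / q j) a with hh_def
    obtain ⟨T, hT1, hT2, hT3⟩ := exists_classes (Cl B y q) (Lam d y q') (fun j => ev (y j : ℤ)) h
      (by
        intro i j hij
        have h1 := cop_vf (N := N) hij a (hay i) (hay j)
        have h2 : h i ∣ vf (Vd y) (ds (y i) a) := Nat.div_dvd_of_dvd (Nat.gcd_dvd_left _ _)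
        have h3 : h j ∣ vf (Vd y) (ds (y j) a) := Nat.div_dvd_of_dvd (Nat.gcd_dvd_left _ _)
        exact Nat.Coprime.coprime_dvd_left h2 (Nat.Coprime.coprime_dvd_right h3 h1))
      (fun j => (Dg B y q j : ℤ)) (fun j => by exact_mod_cast hD j) S hS1 hS2
      (fun j z hz => Dg_dvd B y q j hz)
      (by
        intro j z hz hz'
        have h1 := mem_Lam.1 hz' j
        obtain ⟨s, hs⟩ := Dg_dvd B y q j hz
        obtain ⟨D', hD'⟩ := q_dvd_Dg B y q j
        set g := vf (Vd y) (ds (y j) a) with hg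
        have hg1 : 1 ≤ g := vf_pos _ _
        have hqj := hq j
        have hDq : Dg B y q j / q j = D' := by
          rw [hD', Nat.mul_div_cancel_left _ (by omega)]
        have hhj : h j = g / Nat.gcd g D' := by
          rw [hh_def]
          show hh (Vd y) (y j) (Dg B y q j / q j) a = _
          unfold hh
          rw [hDq]
        rw [hs] at h1 ⊢
        rw [hq' j, hD'] at h1
        push_cast at h1
        have h2 : (g : ℤ) ∣ (D' : ℤ) * s := by
          have e1 : (q j : ℤ) * (D' : ℤ) * s = (q j : ℤ) * ((D' : ℤ) * s) := by ring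
          rw [e1] at h1
          have hq0 : (q j : ℤ) ≠ 0 := by
            have : q j ≠ 0 := by omega
            exact_mod_cast this
          exact (mul_dvd_mul_iff_left hq0).1 h1
        have hgcd : 1 ≤ Nat.gcd g D' := Nat.gcd_pos_of_pos_left _ hg1
        have hcop : Nat.Coprime (g / Nat.gcd g D') (D' / Nat.gcd g D') := Nat.coprime_div_gcd_div_gcd hgcd
        have e2 : g = Nat.gcd g D' * (g / Nat.gcd g D') := (Nat.mul_div_cancel' (Nat.gcd_dvd_left _ _)).symm
        have e3 : D' = Nat.gcd g D' * (D' / Nat.gcd g D') := (Nat.mul_div_cancel' (Nat.gcd_dvd_right _ _)).symm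
        have h3 : ((g / Nat.gcd g D' : ℕ) : ℤ) ∣ ((D' / Nat.gcd g D' : ℕ) : ℤ) * s := by
          set G := Nat.gcd g D' with hG
          set g1 := g / G with hg1'
          set D1 := D' / G with hD1'
          rw [e2, e3] at h2
          push_cast at h2
          have e4 : (G : ℤ) * (D1 : ℤ) * s = (G : ℤ) * ((D1 : ℤ) * s) := by ring
          rw [e4] at h2
          have hG0 : (G : ℤ) ≠ 0 := by
            have : G ≠ 0 := by omega
            exact_mod_cast this
          exact (mul_dvd_mul_iff_left hG0).1 h2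
        have h4 : ((g / Nat.gcd g D' : ℕ) : ℤ) ∣ s := by
          apply IsCoprime.dvd_of_dvd_mul_left _ h3
          rw [Nat.isCoprime_iff_coprime]
          exact hcop
        rw [hhj]
        exact mul_dvd_mul_left _ h4)
    have hdrop := drop B hB (Lam d y q) (Lam d y q') hle heq T hT1 hT2
    rw [hT3] at hdrop
    rw [hrk]
    exact Nat.mul_le_mul_right _ hdrop
  · -- the rank drops
    have hlt : rk B y q' < rk B y q := by
      unfold rk
      exact Submodule.finrank_lt_finrank_of_lt (lt_of_le_of_ne hspan heq)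
    have h1 : ∏ j, hh (Vd y) (y j) (Dg B y q j / q j) a ≤ N ^ n := by
      calc ∏ j, hh (Vd y) (y j) (Dg B y q j / q j) a ≤ ∏ _j : Fin n, N := by
            apply Finset.prod_le_prod'
            intro j _
            have e0 : 1 ≤ ds (y j) a := by have := hay j; unfold ds; omega
            exact (Nat.div_le_self _ _).trans ((Nat.le_of_dvd e0 (vf_dvd _ _ e0)).trans
              (ds_le' (hy.2 j) ha))
        _ = N ^ n := by simp
    have hN1 : 1 ≤ N := ha.1.trans ha.2
    have hNn : 1 ≤ N ^ n := Nat.one_le_pow _ _ hN1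
    calc (∏ j, hh (Vd y) (y j) (Dg B y q j / q j) a) * (Pt B y q').card * (N ^ n) ^ rk B y q'
        ≤ N ^ n * (Pt B y q).card * (N ^ n) ^ rk B y q' :=
          Nat.mul_le_mul_right _ (Nat.mul_le_mul h1 (Finset.card_le_card hsub))
      _ = (Pt B y q).card * (N ^ n) ^ (rk B y q' + 1) := by rw [pow_succ]; ring
      _ ≤ (Pt B y q).card * (N ^ n) ^ rk B y q :=
          Nat.mul_le_mul_left _ (Nat.pow_le_pow_right hNn hlt)
      _ ≤ (2 * (d + 1) + 1) ^ d * ((Pt B y q).card * (N ^ n) ^ rk B y q) :=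
          Nat.le_mul_of_pos_left _ (Nat.pos_of_ne_zero (by positivity))
      _ = _ := by ring

end Pool.Agent.Q264.VM
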